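import Pool.Agent.N561.A.Stm

/-!
# Primitives on star-shaped domains, the function `LL`
-/

set_option autoImplicit false
set_option linter.all false

namespace Pool.Agent.N402.VE

open Filter Topology Metric Set MeasureTheory
open scoped Real Interval
open Pool.Agent.N561 (LL LS)

/-- the derivative of the radial integral of a holomorphic function on a star-shaped open set -/
theorem hasDerivAt_radial {f : ℂ → ℂ} {S : Set ℂ} (hS : IsOpen S)
    (hmem : ∀ z ∈ S, ∀ t ∈ Icc (0:ℝ) 1, (t : ℂ) * z ∈ S)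
    (hf : DifferentiableOn ℂ f S) {z₀ : ℂ} (hz₀ : z₀ ∈ S) :
    HasDerivAt (fun z : ℂ => ∫ t in (0:ℝ)..1, z * f (t * z)) (f z₀) z₀ := by
  have hf' : DifferentiableOn ℂ (deriv f) S := hf.deriv hS
  obtain ⟨ε, hε, hεS⟩ := Metric.isOpen_iff.1 hS z₀ hz₀
  have hball : closedBall z₀ (ε / 2) ⊆ S :=
    (closedBall_subset_ball (by linarith)).trans hεS
  set F' : ℂ → ℝ → ℂ := fun z t => f (t * z) + z * (t * deriv f (t * z)) with hF'
  -- continuity
  have hc1 : ∀ z ∈ S, ContinuousOn (fun t : ℝ => f (t * z)) (Icc 0 1) := by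
    intro z hz
    exact hf.continuousOn.comp (by fun_prop) (fun t ht => hmem z hz t ht)
  have hc2 : ∀ z ∈ S, ContinuousOn (fun t : ℝ => deriv f (t * z)) (Icc 0 1) := by
    intro z hz
    exact hf'.continuousOn.comp (by fun_prop) (fun t ht => hmem z hz t ht)
  have hc3 : ContinuousOn (fun p : ℂ × ℝ => F' p.1 p.2) (closedBall z₀ (ε / 2) ×ˢ Icc (0:ℝ) 1) := by
    have m : MapsTo (fun p : ℂ × ℝ => (p.2 : ℂ) * p.1) (closedBall z₀ (ε / 2) ×ˢ Icc (0:ℝ) 1) S :=
      fun p hp => hmem _ (hball hp.1) _ hp.2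
    have c0 : ContinuousOn (fun p : ℂ × ℝ => (p.2 : ℂ) * p.1)
        (closedBall z₀ (ε / 2) ×ˢ Icc (0:ℝ) 1) := by fun_prop
    have c1 := hf.continuousOn.comp c0 m
    have c2 := hf'.continuousOn.comp c0 m
    have c3 : ContinuousOn (fun p : ℂ × ℝ => (p.2 : ℂ)) (closedBall z₀ (ε / 2) ×ˢ Icc (0:ℝ) 1) := by
      fun_prop
    have c4 : ContinuousOn (fun p : ℂ × ℝ => p.1) (closedBall z₀ (ε / 2) ×ˢ Icc (0:ℝ) 1) := by
      fun_prop
    exact c1.add (c4.mul (c3.mul c2))
  obtain ⟨B, hB⟩ := ((isCompact_closedBall z₀ (ε / 2)).prod isCompact_Icc).exists_bound_of_continuousOn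
    hc3
  have key := intervalIntegral.hasDerivAt_integral_of_dominated_loc_of_deriv_le
    (μ := volume) (a := 0) (b := 1) (F := fun (z : ℂ) (t : ℝ) => z * f (t * z)) (F' := F')
    (x₀ := z₀) (s := closedBall z₀ (ε / 2)) (bound := fun _ => B)
    (closedBall_mem_nhds z₀ (by linarith)) ?_ ?_ ?_ ?_ ?_ ?_
  · refine key.2.congr_deriv ?_
    have hd : ∀ t ∈ uIcc (0:ℝ) 1, HasDerivAt (fun t : ℝ => (t : ℂ) * f (t * z₀)) (F' z₀ t) t := by
      intro t ht
      rw [uIcc_of_le zero_le_one] at ht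
      have h1 : HasDerivAt f (deriv f (t * z₀)) ((t : ℂ) * z₀) :=
        (hf.differentiableAt (hS.mem_nhds (hmem z₀ hz₀ t ht))).hasDerivAt
      have h2 : HasDerivAt (fun s : ℂ => s * z₀) z₀ (t : ℂ) := by
        simpa using (hasDerivAt_id (t : ℂ)).mul_const z₀
      have h3 : HasDerivAt (fun s : ℂ => f (s * z₀)) (deriv f (t * z₀) * z₀) (t : ℂ) :=
        HasDerivAt.comp (h := fun s : ℂ => s * z₀) (t : ℂ) h1 h2
      have h4 := ((hasDerivAt_id (t : ℂ)).mul h3).comp_ofReal
      refine h4.congr_deriv ?_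
      simp only [hF', id]
      ring
    have hint : IntervalIntegrable (F' z₀) volume 0 1 := key.1
    have h := intervalIntegral.integral_eq_sub_of_hasDerivAt hd hint
    rw [h]
    simp
  · filter_upwards [hS.mem_nhds hz₀] with z hz
    rw [Set.uIoc_of_le zero_le_one]
    exact ((continuousOn_const.mul (hc1 z hz)).mono Ioc_subset_Icc_self).aestronglyMeasurable
      measurableSet_Ioc
  · apply ContinuousOn.intervalIntegrable
    rw [uIcc_of_le zero_le_one]
    exact continuousOn_const.mul (hc1 z₀ hz₀)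
  · rw [Set.uIoc_of_le zero_le_one]
    apply ContinuousOn.aestronglyMeasurable _ measurableSet_Ioc
    apply ContinuousOn.mono _ Ioc_subset_Icc_self
    have c3 : ContinuousOn (fun t : ℝ => (t : ℂ)) (Icc 0 1) := by fun_prop
    exact (hc1 z₀ hz₀).add (continuousOn_const.mul (c3.mul (hc2 z₀ hz₀)))
  · refine ae_of_all _ fun t ht z hz => ?_
    rw [Set.uIoc_of_le zero_le_one] at ht
    exact hB (z, t) ⟨hz, Ioc_subset_Icc_self ht⟩
  · exact intervalIntegrable_const
  · refine ae_of_all _ fun t ht z hz => ?_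
    rw [Set.uIoc_of_le zero_le_one] at ht
    have ht' := Ioc_subset_Icc_self ht
    have h1 : HasDerivAt f (deriv f (t * z)) ((t : ℂ) * z) :=
      (hf.differentiableAt (hS.mem_nhds (hmem z (hball hz) t ht'))).hasDerivAt
    have h2 : HasDerivAt (fun s : ℂ => (t : ℂ) * s) (t : ℂ) z := by
      simpa using (hasDerivAt_id z).const_mul (t : ℂ)
    have h3 : HasDerivAt (fun s : ℂ => f ((t : ℂ) * s)) (deriv f (t * z) * t) z :=
      HasDerivAt.comp (h := fun s : ℂ => (t : ℂ) * s) z h1 h2
    have h4 := (hasDerivAt_id z).mul h3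
    refine h4.congr_deriv ?_
    simp only [hF', id]
    ring

/-- the domain of `LL` -/
def Om : Set ℂ := {w | |w.re| < π ∧ (w.im ≠ 0 ∨ |w.re| < π / 2)}

theorem Om_open : IsOpen Om := by
  have h1 : IsOpen {w : ℂ | |w.re| < π} :=
    isOpen_lt (continuous_abs.comp Complex.continuous_re) continuous_const
  have h2 : IsOpen {w : ℂ | |w.re| < π / 2} :=
    isOpen_lt (continuous_abs.comp Complex.continuous_re) continuous_const
  have h3 : IsOpen {w : ℂ | w.im ≠ 0} := isOpen_ne_fun Complex.continuous_im continuous_const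
  exact h1.inter (h3.union h2)

theorem Om_star : ∀ z ∈ Om, ∀ t ∈ Icc (0:ℝ) 1, (t : ℂ) * z ∈ Om := by
  intro z hz t ht
  obtain ⟨h1, h2⟩ := hz
  have hpi := Real.pi_pos
  have hle : |((t : ℂ) * z).re| ≤ |z.re| := by
    rw [Complex.re_ofReal_mul, abs_mul, abs_of_nonneg ht.1]
    exact mul_le_of_le_one_left (abs_nonneg _) ht.2
  refine ⟨hle.trans_lt h1, ?_⟩
  rcases h2 with h2 | h2
  · rcases eq_or_lt_of_le ht.1 with h | h
    · right
      rw [← h]
      simp
      positivity
    · left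
      rw [Complex.im_ofReal_mul]
      exact mul_ne_zero h.ne' h2
  · right
    exact hle.trans_lt h2

theorem two_cos_slit {w : ℂ} (hw : w ∈ Om) : 2 * Complex.cos w ∈ Complex.slitPlane := by
  obtain ⟨h1, h2⟩ := hw
  have hre : (2 * Complex.cos w).re = 2 * (Real.cos w.re * Real.cosh w.im) := by
    rw [show (2 : ℂ) = ((2 : ℝ) : ℂ) by norm_num, Complex.re_ofReal_mul]
    congr 1
    conv_lhs => rw [← Complex.re_add_im w]
    rw [Complex.cos_add_mul_I]
    simp [Complex.cos_ofReal_re, Complex.cosh_ofReal_re, ← Complex.ofReal_cos, ← Complex.ofReal_cosh,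
      ← Complex.ofReal_sin, ← Complex.ofReal_sinh]
  have him : (2 * Complex.cos w).im = -(2 * (Real.sin w.re * Real.sinh w.im)) := by
    rw [show (2 : ℂ) = ((2 : ℝ) : ℂ) by norm_num, Complex.im_ofReal_mul]
    have : (Complex.cos w).im = -(Real.sin w.re * Real.sinh w.im) := by
      conv_lhs => rw [← Complex.re_add_im w]
      rw [Complex.cos_add_mul_I]
      simp [Complex.cos_ofReal_re, Complex.cosh_ofReal_re, ← Complex.ofReal_cos,
        ← Complex.ofReal_cosh, ← Complex.ofReal_sin, ← Complex.ofReal_sinh]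
    rw [this]; ring
  rw [Complex.mem_slitPlane_iff, hre, him]
  have hch := Real.cosh_pos w.im
  rcases lt_or_ge |w.re| (π / 2) with h | h
  · left
    have := Real.cos_pos_of_mem_Ioo (abs_lt.1 h)
    positivity
  · right
    have h3 : w.im ≠ 0 := by
      rcases h2 with h2 | h2
      · exact h2
      · exact absurd h2 (not_lt.2 h)
    have hsh : Real.sinh w.im ≠ 0 := by
      intro h0; exact h3 (Real.sinh_eq_zero.1 h0)
    have hs : Real.sin w.re ≠ 0 := by
      intro h0
      have hpi := Real.pi_pos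
      obtain ⟨ha, hb⟩ := abs_lt.1 h1
      have := (Real.sin_eq_zero_iff_of_lt_of_lt ha hb).1 h0
      rw [this, abs_zero] at h
      linarith
    exact neg_ne_zero.2 (mul_ne_zero two_ne_zero (mul_ne_zero hs hsh))

theorem log_cos_diff : DifferentiableOn ℂ (fun w : ℂ => Complex.log (2 * Complex.cos w)) Om := by
  intro w hw
  have h2 : DifferentiableAt ℂ (fun v : ℂ => 2 * Complex.cos v) w := by fun_prop
  exact (h2.clog (two_cos_slit hw)).differentiableWithinAt

theorem LL_deriv {w : ℂ} (hw : w ∈ Om) : HasDerivAt LL (Complex.log (2 * Complex.cos w)) w := by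
  have h := hasDerivAt_radial Om_open Om_star log_cos_diff hw
  have e : LL = fun z : ℂ => ∫ t in (0:ℝ)..1, z * Complex.log (2 * Complex.cos (t * z)) := by
    funext z
    unfold LL
    rw [intervalIntegral.integral_const_mul]
  rw [e]
  exact h

end Pool.Agent.N402.VE
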