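import Pool.Agent.W583.HTPoth
import Pool.Agent.W864.AR.SHP
import Pool.Agent.N402.VE.Prim
import Pool.Agent.TH609.Z.Hinge

/-!
# The base point `ψ = 0`
-/

set_option autoImplicit false
set_option linter.all false

namespace Pool.Agent.N402.VE

open Filter Topology Metric Set
open Pool.Agent.W711.HT hiding XX
open Pool.Agent.W864.AR (t1 t2)
open Pool.Agent.TH609.Z (ex)
open Pool.Agent.W554.HT (tri ang_eq)
open Pool.Agent.N561 (GG dst)
open scoped Real

/-- cosine and sine in real terms -/
theorem cos_parts (x y : ℝ) : (Complex.cos (x + y * Complex.I)).re = Real.cos x * Real.cosh y ∧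
    (Complex.cos (x + y * Complex.I)).im = -(Real.sin x * Real.sinh y) := by
  rw [Complex.cos_add_mul_I]
  constructor <;>
    simp [← Complex.ofReal_cos, ← Complex.ofReal_cosh, ← Complex.ofReal_sin, ← Complex.ofReal_sinh]

theorem sin_parts (x y : ℝ) : (Complex.sin (x + y * Complex.I)).re = Real.sin x * Real.cosh y ∧
    (Complex.sin (x + y * Complex.I)).im = Real.cos x * Real.sinh y := by
  rw [Complex.sin_add_mul_I]
  constructor <;>
    simp [← Complex.ofReal_cos, ← Complex.ofReal_cosh, ← Complex.ofReal_sin, ← Complex.ofReal_sinh]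

/-- the value of `dst` on the axis -/
theorem dst_zero (φ : ℂ) : dst 0 φ = 1 / π * Complex.arctan (Complex.cos (φ / 2)) := by
  unfold dst
  simp

/-- the point `t = φ / 2` -/
structure Pt (t : ℂ) : Prop where
  re0 : 0 ≤ t.re
  re1 : t.re < π / 2
  im : 0 < t.im

section
variable {t : ℂ} (h : Pt t)
include h

theorem c_re : (Complex.cos t).re = Real.cos t.re * Real.cosh t.im := by
  conv_lhs => rw [← Complex.re_add_im t]
  exact (cos_parts _ _).1

theorem c_im : (Complex.cos t).im = -(Real.sin t.re * Real.sinh t.im) := by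
  conv_lhs => rw [← Complex.re_add_im t]
  exact (cos_parts _ _).2

theorem s_re : (Complex.sin t).re = Real.sin t.re * Real.cosh t.im := by
  conv_lhs => rw [← Complex.re_add_im t]
  exact (sin_parts _ _).1

theorem s_im : (Complex.sin t).im = Real.cos t.re * Real.sinh t.im := by
  conv_lhs => rw [← Complex.re_add_im t]
  exact (sin_parts _ _).2

theorem pos1 : 0 < Real.cos t.re ∧ 0 ≤ Real.sin t.re ∧ 0 < Real.sinh t.im ∧ 1 < Real.cosh t.im := by
  have hpi := Real.pi_pos
  refine ⟨Real.cos_pos_of_mem_Ioo ⟨by linarith [h.re0], h.re1⟩,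
    Real.sin_nonneg_of_nonneg_of_le_pi h.re0 (by linarith [h.re1]), Real.sinh_pos_iff.2 h.im,
    Real.one_lt_cosh.2 h.im.ne'⟩

theorem c_pos : 0 < (Complex.cos t).re := by
  rw [c_re h]
  obtain ⟨h1, h2, h3, h4⟩ := pos1 h
  exact mul_pos h1 (by linarith)

theorem c_ne : Complex.cos t ≠ 0 := by
  intro h0
  have := c_pos h
  rw [h0] at this
  simp at this

theorem nA : 1 + Complex.cos t * Complex.I ≠ 0 := by
  intro h0
  have := congrArg Complex.im h0
  have h2 := c_pos h
  simp at this
  linarith

theorem nB : 1 - Complex.cos t * Complex.I ≠ 0 := by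
  intro h0
  have := congrArg Complex.im h0
  have h2 := c_pos h
  simp at this
  linarith

theorem ex_arctan : ex (2 * π * (1 / π * Complex.arctan (Complex.cos t))) =
    (1 + Complex.cos t * Complex.I) / (1 - Complex.cos t * Complex.I) := by
  have hpi : (π : ℂ) ≠ 0 := by exact_mod_cast Real.pi_ne_zero
  have e : Complex.I * (2 * π * (1 / π * Complex.arctan (Complex.cos t))) =
      Complex.log ((1 + Complex.cos t * Complex.I) / (1 - Complex.cos t * Complex.I)) := by
    unfold Complex.arctan
    obtain ⟨L, hL⟩ : ∃ L : ℂ, L = Complex.log ((1 + Complex.cos t * Complex.I) /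
      (1 - Complex.cos t * Complex.I)) := ⟨_, rfl⟩
    rw [← hL]
    field_simp
    linear_combination (-L) * Complex.I_sq
  rw [ex, e, Complex.exp_log (div_ne_zero (nA h) (nB h))]

theorem s_ne1 : 1 - Complex.sin t ≠ 0 := by
  intro h0
  have := congrArg Complex.im h0
  rw [Complex.sub_im, s_im h, Complex.one_im, Complex.zero_im] at this
  obtain ⟨h1, h2, h3, h4⟩ := pos1 h
  have := mul_pos h1 h3
  linarith

theorem nC : Complex.cos t - Complex.I ≠ 0 := by
  intro h0
  have := congrArg Complex.re h0
  have h2 := c_pos h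
  simp at this
  linarith

/-- the shapes at the side of `ψ = 0` -/
theorem t1_zero : t1 ((1 + Complex.cos t * Complex.I) / (1 - Complex.cos t * Complex.I)) (ex 0) =
    1 + Complex.cos t * Complex.I := by
  have h1 := nB h
  have e0 : ex 0 = 1 := by simp [ex]
  rw [t1, e0]
  have e1 : 1 + (1 + Complex.cos t * Complex.I) / (1 - Complex.cos t * Complex.I) * 1 =
      2 / (1 - Complex.cos t * Complex.I) := by
    field_simp
    ring
  rw [e1]
  field_simp
  ring

theorem t2_zero : t2 ((1 + Complex.cos t * Complex.I) / (1 - Complex.cos t * Complex.I)) (ex 0) =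
    1 - 1 / (1 + Complex.cos t * Complex.I) := by
  have h1 := nB h
  have h2 := nA h
  have e0 : ex 0 = 1 := by simp [ex]
  rw [t2, e0]
  field_simp
  ring

theorem im_t1_zero : 0 < (1 + Complex.cos t * Complex.I).im := by
  have := c_pos h
  simpa using this

theorem im_t2_zero : 0 < (1 - 1 / (1 + Complex.cos t * Complex.I)).im := by
  have h1 := im_t1_zero h
  have h2 : 0 < Complex.normSq (1 + Complex.cos t * Complex.I) := Complex.normSq_pos.2 (nA h)
  rw [Complex.sub_im, Complex.one_im, one_div, Complex.inv_im]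
  have := div_pos h1 h2
  rw [neg_div]
  linarith

/-- the shapes at the side of `φ = 2 t` -/
theorem t1_phi : t1 ((1 + Complex.cos t * Complex.I) / (1 - Complex.cos t * Complex.I))
    (ex (2 * t)) = (1 + Complex.cos t * Complex.I) / (1 - Complex.sin t) := by
  have h1 := nB h
  have h2 := nA h
  have h3 := s_ne1 h
  have h4 := c_ne h
  set e := Complex.exp (t * Complex.I) with he
  have he0 : e ≠ 0 := Complex.exp_ne_zero _
  have ei : Complex.exp (-t * Complex.I) = e⁻¹ := by rw [he, ← Complex.exp_neg]; congr 1; ring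
  have eK : ex (2 * t) = e ^ 2 := by
    rw [ex, he, ← Complex.exp_nat_mul]
    congr 1
    push_cast
    ring
  have k1 : e ^ 2 + 1 = 2 * e * Complex.cos t := by
    rw [Complex.cos, ei, ← he]
    field_simp
  have k2 : e ^ 2 - 1 = 2 * Complex.I * e * Complex.sin t := by
    rw [Complex.sin, ei, ← he]
    field_simp
    linear_combination (-(1 - e ^ 2)) * Complex.I_sq
  rw [t1, eK]
  have k3 : 1 + (1 + Complex.cos t * Complex.I) / (1 - Complex.cos t * Complex.I) * e ^ 2 =
      2 * e * Complex.cos t * (1 - Complex.sin t) / (1 - Complex.cos t * Complex.I) := by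
    rw [eq_div_iff h1, add_mul, mul_assoc, mul_comm (e ^ 2), ← mul_assoc, div_mul_cancel₀ _ h1]
    linear_combination k1 + Complex.cos t * Complex.I * k2 +
      (2 * e * Complex.sin t * Complex.cos t) * Complex.I_sq
  rw [k3, k1]
  field_simp

theorem t2_phi : t2 ((1 + Complex.cos t * Complex.I) / (1 - Complex.cos t * Complex.I))
    (ex (2 * t)) = Complex.exp (t * Complex.I) / (Complex.cos t - Complex.I) := by
  have h1 := nB h
  have h2 := nA h
  have h4 := c_ne h
  have h5 := nC h
  set e := Complex.exp (t * Complex.I) with he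
  have he0 : e ≠ 0 := Complex.exp_ne_zero _
  have ei : Complex.exp (-t * Complex.I) = e⁻¹ := by rw [he, ← Complex.exp_neg]; congr 1; ring
  have eK : ex (2 * t) = e ^ 2 := by
    rw [ex, he, ← Complex.exp_nat_mul]
    congr 1
    push_cast
    ring
  have k1 : 1 + e ^ 2 = 2 * e * Complex.cos t := by
    rw [Complex.cos, ei, ← he]
    field_simp
    ring
  rw [t2, eK, k1]
  have k3 : (1 + Complex.cos t * Complex.I) / (1 - Complex.cos t * Complex.I) - 1 =
      2 * Complex.cos t * Complex.I / (1 - Complex.cos t * Complex.I) := by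
    field_simp
    ring
  rw [k3, div_eq_div_iff (mul_ne_zero (div_ne_zero h2 h1) (mul_ne_zero (mul_ne_zero two_ne_zero he0)
    h4)) h5]
  field_simp
  linear_combination (-1 : ℂ) * Complex.I_sq

theorem im_t1_phi : 0 < ((1 + Complex.cos t * Complex.I) / (1 - Complex.sin t)).im := by
  obtain ⟨h1, h2, h3, h4⟩ := pos1 h
  have hn : 0 < Complex.normSq (1 - Complex.sin t) := Complex.normSq_pos.2 (s_ne1 h)
  rw [Complex.div_im, ← sub_div]
  apply div_pos _ hn
  have e1 : (1 + Complex.cos t * Complex.I).im = Real.cos t.re * Real.cosh t.im := by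
    simp [c_re h]
  have e2 : (1 + Complex.cos t * Complex.I).re = 1 + Real.sin t.re * Real.sinh t.im := by
    simp [c_im h]
  have e3 : (1 - Complex.sin t).re = 1 - Real.sin t.re * Real.cosh t.im := by
    simp [s_re h]
  have e4 : (1 - Complex.sin t).im = -(Real.cos t.re * Real.sinh t.im) := by
    simp [s_im h]
  rw [e1, e2, e3, e4]
  have hcs := Real.cosh_sq t.im
  have hS : Real.sin t.re ≤ 1 := Real.sin_le_one _
  have key : Real.cos t.re * Real.cosh t.im * (1 - Real.sin t.re * Real.cosh t.im) -
      (1 + Real.sin t.re * Real.sinh t.im) * -(Real.cos t.re * Real.sinh t.im) =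
      Real.cos t.re * (Real.cosh t.im + Real.sinh t.im - Real.sin t.re) := by
    linear_combination (-(Real.cos t.re * Real.sin t.re)) * hcs
  rw [key]
  apply mul_pos h1
  linarith

theorem im_t2_phi : 0 < (Complex.exp (t * Complex.I) / (Complex.cos t - Complex.I)).im := by
  obtain ⟨h1, h2, h3, h4⟩ := pos1 h
  have hn : 0 < Complex.normSq (Complex.cos t - Complex.I) := Complex.normSq_pos.2 (nC h)
  rw [Complex.div_im, ← sub_div]
  apply div_pos _ hn
  have r1 : (t * Complex.I).re = -t.im := by simp
  have r2 : (t * Complex.I).im = t.re := by simp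
  have e1 : (Complex.exp (t * Complex.I)).im = Real.exp (-t.im) * Real.sin t.re := by
    rw [Complex.exp_im, r1, r2]
  have e2 : (Complex.exp (t * Complex.I)).re = Real.exp (-t.im) * Real.cos t.re := by
    rw [Complex.exp_re, r1, r2]
  have e3 : (Complex.cos t - Complex.I).re = Real.cos t.re * Real.cosh t.im := by
    simp [c_re h]
  have e4 : (Complex.cos t - Complex.I).im = -(Real.sin t.re * Real.sinh t.im) - 1 := by
    simp [c_im h]
  rw [e1, e2, e3, e4]
  have key : Real.exp (-t.im) * Real.sin t.re * (Real.cos t.re * Real.cosh t.im) -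
      Real.exp (-t.im) * Real.cos t.re * (-(Real.sin t.re * Real.sinh t.im) - 1) =
      Real.exp (-t.im) * Real.cos t.re * (1 + Real.sin t.re * (Real.cosh t.im + Real.sinh t.im)) := by
    ring
  rw [key]
  have := mul_nonneg h2 (by linarith : (0:ℝ) ≤ Real.cosh t.im + Real.sinh t.im)
  have he := Real.exp_pos (-t.im)
  positivity

/-- the difference of the arguments -/
theorem arg_diff : 0 < (1 + Complex.sin t).arg - (1 - Complex.sin t).arg ∧
    (1 + Complex.sin t).arg - (1 - Complex.sin t).arg < π ∧
    (0 < (1 + Complex.sin t).arg ∧ (1 + Complex.sin t).arg < π / 2) ∧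
    (-π < (1 - Complex.sin t).arg ∧ (1 - Complex.sin t).arg < 0) := by
  obtain ⟨h1, h2, h3, h4⟩ := pos1 h
  have hpi := Real.pi_pos
  have hi := mul_pos h1 h3
  have e1 : (1 + Complex.sin t).re = 1 + Real.sin t.re * Real.cosh t.im := by simp [s_re h]
  have e2 : (1 + Complex.sin t).im = Real.cos t.re * Real.sinh t.im := by simp [s_im h]
  have e3 : (1 - Complex.sin t).re = 1 - Real.sin t.re * Real.cosh t.im := by simp [s_re h]
  have e4 : (1 - Complex.sin t).im = -(Real.cos t.re * Real.sinh t.im) := by simp [s_im h]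
  have p1 : 0 < (1 + Complex.sin t).re := by
    rw [e1]
    have := mul_nonneg h2 (by linarith : (0:ℝ) ≤ Real.cosh t.im)
    linarith
  have a1 : 0 < (1 + Complex.sin t).arg ∧ (1 + Complex.sin t).arg < π / 2 :=
    Pool.Agent.W864.AR.arg_half p1 (by rw [e2]; exact hi)
  have a2 : (1 - Complex.sin t).arg < 0 := Complex.arg_neg_iff.2 (by rw [e4]; linarith)
  have a3 := Complex.neg_pi_lt_arg (1 - Complex.sin t)
  have n1 : 1 + Complex.sin t ≠ 0 := by
    intro h0; rw [h0] at p1; simp at p1
  have n2 := s_ne1 h
  -- the quotient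
  have hq : 0 < ((1 + Complex.sin t) / (1 - Complex.sin t)).im := by
    have hn : 0 < Complex.normSq (1 - Complex.sin t) := Complex.normSq_pos.2 n2
    rw [Complex.div_im, ← sub_div]
    apply div_pos _ hn
    rw [e1, e2, e3, e4]
    have : Real.cos t.re * Real.sinh t.im * (1 - Real.sin t.re * Real.cosh t.im) -
        (1 + Real.sin t.re * Real.cosh t.im) * -(Real.cos t.re * Real.sinh t.im) =
        2 * (Real.cos t.re * Real.sinh t.im) := by ring
    rw [this]
    linarith
  have hq1 := Pool.Agent.W709.VC.arg_mem hq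
  have hk : ((1 + Complex.sin t).arg - (1 - Complex.sin t).arg : ℝ) =
      ((1 + Complex.sin t) / (1 - Complex.sin t)).arg := by
    apply ang_eq
    · rw [Complex.arg_div_coe_angle n1 n2, Real.Angle.coe_sub]
    · rw [abs_lt]; constructor <;> linarith [hq1.1, hq1.2, a1.1, a1.2]
  rw [hk]
  exact ⟨hq1.1, hq1.2, a1, a3, a2⟩

/-- the cosines at the side of `φ` -/
theorem cos_w {v : ℂ} (hv : v = Complex.arctan (Complex.cos t)) :
    Complex.cos (v + t) = Complex.sin v * (1 - Complex.sin t) ∧
    Complex.cos (v - t) = Complex.sin v * (1 + Complex.sin t) := by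
  have hn1 : Complex.cos t ≠ Complex.I := fun h0 => nC h (by rw [h0, sub_self])
  have hn2 : Complex.cos t ≠ -Complex.I := by
    intro h0
    have := congrArg Complex.re h0
    have h2 := c_pos h
    simp at this
    linarith
  have htan : Complex.tan v = Complex.cos t := by
    rw [hv]
    exact Complex.tan_arctan hn1 hn2
  have hcv : Complex.cos v ≠ 0 := by
    intro h0
    rw [Complex.tan_eq_sin_div_cos, h0, div_zero] at htan
    exact c_ne h htan.symm
  have hk : Complex.cos v * Complex.cos t = Complex.sin v := by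
    rw [← htan, Complex.tan_eq_sin_div_cos]
    field_simp
  constructor
  · rw [Complex.cos_add]
    linear_combination hk
  · rw [Complex.cos_sub]
    linear_combination hk

/-- the arguments of the cosines -/
theorem arg_w {v : ℂ} (hv : v = Complex.arctan (Complex.cos t)) (h0 : 0 < v.re)
    (h1 : v.re < π / 2) (h2 : |v.im| < t.im) :
    |(Complex.cos (v - t)).arg - (Complex.cos (v + t)).arg| < π := by
  obtain ⟨d1, d2, ⟨d3, d4⟩, d5, d6⟩ := arg_diff h
  obtain ⟨c1, c2⟩ := cos_w h hv
  have hpi := Real.pi_pos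
  have hs : 0 < (Complex.sin v).re := by
    rw [Pool.Agent.W583.HTP.sin_re]
    exact mul_pos (Real.sin_pos_of_pos_of_lt_pi h0 (by linarith)) (Real.cosh_pos _)
  have hs0 : Complex.sin v ≠ 0 := by
    intro h0; rw [h0] at hs; simp at hs
  have hsa := abs_lt.1 (Complex.abs_arg_lt_pi_div_two_iff.2 (Or.inl hs))
  have n1 : 1 + Complex.sin t ≠ 0 := by
    intro h0; rw [h0] at d3; simp at d3
  have n2 := s_ne1 h
  have k1 : (Complex.cos (v - t)).arg = (Complex.sin v).arg + (1 + Complex.sin t).arg := by
    rw [c2]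
    apply ang_eq
    · rw [Complex.arg_mul_coe_angle hs0 n1, Real.Angle.coe_add]
    · have b1 := Complex.neg_pi_lt_arg (Complex.sin v * (1 + Complex.sin t))
      have b2 := Complex.arg_le_pi (Complex.sin v * (1 + Complex.sin t))
      rw [abs_lt]; constructor <;> linarith [hsa.1, hsa.2]
  have k2 : (Complex.cos (v + t)).arg = (Complex.sin v).arg + (1 - Complex.sin t).arg := by
    have him : (Complex.cos (v + t)).im < 0 := by
      have e : v + t = ((v.re + t.re : ℝ) : ℂ) + ((v.im + t.im : ℝ) : ℂ) * Complex.I := by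
        apply Complex.ext <;> simp
      rw [e, (cos_parts _ _).2]
      have p1 : 0 < Real.sin (v.re + t.re) :=
        Real.sin_pos_of_pos_of_lt_pi (by linarith [h.re0]) (by linarith [h.re1])
      have p2 : 0 < Real.sinh (v.im + t.im) := by
        apply Real.sinh_pos_iff.2
        linarith [(abs_lt.1 h2).1]
      have := mul_pos p1 p2
      linarith
    have b1 := Complex.neg_pi_lt_arg (Complex.cos (v + t))
    have b2 : (Complex.cos (v + t)).arg < 0 := Complex.arg_neg_iff.2 him
    rw [c1] at b1 b2 ⊢
    apply ang_eq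
    · rw [Complex.arg_mul_coe_angle hs0 n2, Real.Angle.coe_add]
    · rw [abs_lt]; constructor <;> linarith [hsa.1, hsa.2]
  rw [k1, k2, abs_lt]
  constructor <;> linarith

end

end Pool.Agent.N402.VE
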