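import Pool.Agent.W583.HTPoth
import Pool.Agent.N402.VE.Prim

/-!
# The functions `LL` and `LS` in terms of the Bloch-Wigner function
-/

set_option autoImplicit false
set_option linter.all false

namespace Pool.Agent.N402.VE

open Filter Topology Metric Set MeasureTheory
open Pool.Agent.W711.HT
open Pool.Agent.W709.VC (Dv)
open Pool.Agent.W505.VC
open Pool.Agent.W583.HTP (half_re two_mul_re ld_cos ld_exp Dv_neg_one arg_two_mul)
open Pool.Agent.N561 (LL LS)
open scoped Real ComplexConjugate Interval

theorem arg_cos_cont {w : ℂ} (hw : w ∈ Om) : Complex.cos w ∈ Complex.slitPlane := by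
  have h := two_cos_slit hw
  rw [Complex.mem_slitPlane_iff] at h ⊢
  have e1 : (2 * Complex.cos w).re = 2 * (Complex.cos w).re := by
    rw [show (2 : ℂ) = ((2 : ℝ) : ℂ) by norm_num, Complex.re_ofReal_mul]
  have e2 : (2 * Complex.cos w).im = 2 * (Complex.cos w).im := by
    rw [show (2 : ℂ) = ((2 : ℝ) : ℂ) by norm_num, Complex.im_ofReal_mul]
  rw [e1, e2] at h
  rcases h with h | h
  · left; linarith
  · right
    intro h0
    rw [h0, mul_zero] at h
    exact h rfl

/-- the function of `t` which is constant -/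
noncomputable def hf (v : ℂ) (t : ℝ) : ℝ := Dv (-Complex.exp (t * (-(Complex.I * v)))) -
    ((2 * LL (t * v / 2)).re + t * v.im * (Complex.cos (t * v / 2)).arg)

theorem mem_half {v : ℂ} (hv : v / 2 ∈ Om) {t : ℝ} (ht : t ∈ Icc (0:ℝ) 1) :
    (t : ℂ) * v / 2 ∈ Om := by
  have := Om_star _ hv t ht
  rwa [← mul_div_assoc] at this

theorem hf_cont {v : ℂ} (hv : v / 2 ∈ Om) : ContinuousOn (hf v) (Icc 0 1) := by
  unfold hf
  apply ContinuousOn.sub
  · apply Dv_cont.comp_continuousOn
    fun_prop
  · apply ContinuousOn.add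
    · apply Complex.continuous_re.comp_continuousOn
      intro t ht
      have h1 : ContinuousAt LL ((t : ℂ) * v / 2) := (LL_deriv (mem_half hv ht)).continuousAt
      have h2 : ContinuousAt (fun s : ℝ => (s : ℂ) * v / 2) t := by fun_prop
      exact (continuousAt_const.mul (ContinuousAt.comp (f := fun s : ℝ => (s : ℂ) * v / 2) h1
        h2)).continuousWithinAt
    · apply ContinuousOn.mul (by fun_prop)
      intro t ht
      have h1 : ContinuousAt Complex.arg (Complex.cos (t * v / 2)) :=
        Complex.continuousAt_arg (arg_cos_cont (mem_half hv ht))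
      have h2 : ContinuousAt (fun s : ℝ => Complex.cos (s * v / 2)) t := by fun_prop
      exact (ContinuousAt.comp (f := fun s : ℝ => Complex.cos (s * v / 2)) h1
        h2).continuousWithinAt

theorem hf_deriv {v : ℂ} (hv : v / 2 ∈ Om) {t : ℝ} (ht : t ∈ Icc (0:ℝ) 1)
    (him : (-Complex.exp (t * (-(Complex.I * v)))).im ≠ 0) : HasDerivAt (hf v) 0 t := by
  have hs := arg_cos_cont (mem_half hv ht)
  have hc0 : Complex.cos (t * v / 2) ≠ 0 := Complex.slitPlane_ne_zero hs
  obtain ⟨pc, hpc⟩ : ∃ pc : ℂ, pc = -(v / 2) * (Complex.sin (t * v / 2) / Complex.cos (t * v / 2)) :=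
    ⟨_, rfl⟩
  have d1 := ld_cos hc0
  rw [← hpc] at d1
  -- the function `f`
  have df : LD (fun s : ℝ => -Complex.exp (s * (-(Complex.I * v)))) (-(Complex.I * v)) t := by
    have := (ld_exp (-(Complex.I * v)) t)
    unfold LD at this ⊢
    refine this.neg.congr_deriv ?_
    ring
  -- `1 - f = 2 cos e^(-isv/2)`
  have dq : LD (fun s : ℝ => 1 - -Complex.exp (s * (-(Complex.I * v))))
      (0 + pc + -(Complex.I * v) / 2) t := by
    have h1 := ((LD.const 2 t).mul d1).mul (ld_exp (-(Complex.I * v) / 2) t)
    refine h1.congr (Eventually.of_forall fun s => ?_)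
    simp only
    have e1 : Complex.cos (s * v / 2) =
        (Complex.exp (s * v / 2 * Complex.I) + Complex.exp (-(s * v / 2) * Complex.I)) / 2 := rfl
    rw [e1]
    have e2 : 2 * ((Complex.exp (s * v / 2 * Complex.I) +
        Complex.exp (-(s * v / 2) * Complex.I)) / 2) *
        Complex.exp (s * (-(Complex.I * v) / 2)) =
        Complex.exp (s * v / 2 * Complex.I) * Complex.exp (s * (-(Complex.I * v) / 2)) +
        Complex.exp (-(s * v / 2) * Complex.I) * Complex.exp (s * (-(Complex.I * v) / 2)) := by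
      ring
    rw [e2, ← Complex.exp_add, ← Complex.exp_add]
    have e3 : s * v / 2 * Complex.I + s * (-(Complex.I * v) / 2) = 0 := by ring
    have e4 : -(s * v / 2) * Complex.I + s * (-(Complex.I * v) / 2) =
      s * (-(Complex.I * v)) := by ring
    rw [e3, e4, Complex.exp_zero]
    ring
  have d2 := df.dv dq him
  -- `LL`
  have d3 : HasDerivAt (fun s : ℝ => (2 * LL (s * v / 2)).re)
      (v * Complex.log (2 * Complex.cos (t * v / 2))).re t := by
    have h1 : HasDerivAt (fun s : ℝ => (s : ℂ) * v / 2) (v / 2) t := by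
      have := ((Complex.ofRealCLM.hasDerivAt (x := t)).mul_const v).div_const 2
      simpa only [Complex.ofRealCLM_apply, Complex.ofReal_one, one_mul] using this
    have h2 := (HasDerivAt.scomp t (LL_deriv (mem_half hv ht)) h1).const_mul (2 : ℂ)
    have h3 := Complex.reCLM.hasFDerivAt.comp_hasDerivAt t h2
    have e : 2 * ((v / 2) • Complex.log (2 * Complex.cos (t * v / 2))) =
        v * Complex.log (2 * Complex.cos (t * v / 2)) := by
      rw [smul_eq_mul]; ring
    rw [e] at h3
    simpa only [Function.comp_def, Complex.reCLM_apply, smul_eq_mul] using h3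
  -- the argument
  have d4 : HasDerivAt (fun s : ℝ => (Complex.cos (s * v / 2)).arg) pc.im t := by
    have h1 : HasDerivAt (fun s : ℝ => Complex.log (Complex.cos (s * v / 2)))
        (pc * Complex.cos (t * v / 2) / Complex.cos (t * v / 2)) t :=
      HasDerivAt.clog_real d1 hs
    rw [mul_div_cancel_right₀ _ hc0] at h1
    have h3 := Complex.imCLM.hasFDerivAt.comp_hasDerivAt t h1
    simpa only [Function.comp_def, Complex.imCLM_apply, Complex.log_im] using h3
  have d5 : HasDerivAt (fun s : ℝ => s * v.im * (Complex.cos (s * v / 2)).arg)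
      (v.im * (Complex.cos (t * v / 2)).arg + t * v.im * pc.im) t := by
    have h1 : HasDerivAt (fun s : ℝ => s * v.im) v.im t := by
      simpa using (hasDerivAt_id t).mul_const v.im
    exact h1.mul d4
  refine (d2.sub (d3.add d5)).congr_deriv ?_
  -- the algebra
  have n1 : Real.log ‖-Complex.exp (t * (-(Complex.I * v)))‖ = t * v.im := by
    rw [norm_neg, Complex.norm_exp, Real.log_exp, Complex.re_ofReal_mul, Complex.neg_re,
      Complex.I_mul_re]
    ring
  have n2 : Real.log ‖1 - -Complex.exp (t * (-(Complex.I * v)))‖ =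
      Real.log ‖2 * Complex.cos (t * v / 2)‖ + t * v.im / 2 := by
    have e0 : 1 - -Complex.exp (t * (-(Complex.I * v))) =
        2 * Complex.cos (t * v / 2) * Complex.exp (t * (-(Complex.I * v) / 2)) := by
      have e1 : Complex.cos (t * v / 2) =
        (Complex.exp (t * v / 2 * Complex.I) + Complex.exp (-(t * v / 2) * Complex.I)) / 2 := rfl
      rw [e1]
      have e2 : 2 * ((Complex.exp (t * v / 2 * Complex.I) +
          Complex.exp (-(t * v / 2) * Complex.I)) / 2) *
          Complex.exp (t * (-(Complex.I * v) / 2)) =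
          Complex.exp (t * v / 2 * Complex.I) * Complex.exp (t * (-(Complex.I * v) / 2)) +
          Complex.exp (-(t * v / 2) * Complex.I) * Complex.exp (t * (-(Complex.I * v) / 2)) := by
        ring
      rw [e2, ← Complex.exp_add, ← Complex.exp_add]
      have e3 : t * v / 2 * Complex.I + t * (-(Complex.I * v) / 2) = 0 := by ring
      have e4 : -(t * v / 2) * Complex.I + t * (-(Complex.I * v) / 2) =
        t * (-(Complex.I * v)) := by ring
      rw [e3, e4, Complex.exp_zero]
      ring
    have hn : ‖2 * Complex.cos (t * v / 2)‖ ≠ 0 :=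
      norm_ne_zero_iff.2 (mul_ne_zero two_ne_zero hc0)
    rw [e0, norm_mul, Real.log_mul hn (Complex.norm_exp _ ▸ (Real.exp_pos _).ne'),
      Complex.norm_exp, Real.log_exp, Complex.re_ofReal_mul, half_re, Complex.neg_re,
      Complex.I_mul_re]
    ring
  have n3 : (v * Complex.log (2 * Complex.cos (t * v / 2))).re =
      v.re * Real.log ‖2 * Complex.cos (t * v / 2)‖ -
      v.im * (Complex.cos (t * v / 2)).arg := by
    rw [Complex.mul_re, Complex.log_re, Complex.log_im, arg_two_mul]
  have n4 : (-(Complex.I * v)).im = -v.re := by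
    rw [Complex.neg_im, Complex.I_mul_im]
  have n5 : (0 + pc + -(Complex.I * v) / 2).im = pc.im - v.re / 2 := by
    have : (-(Complex.I * v) / 2).im = -v.re / 2 := by
      have e : -(Complex.I * v) / 2 = -(Complex.I * v) / ((2 : ℝ) : ℂ) := by push_cast; rfl
      rw [e, Complex.div_ofReal_im, n4]
    rw [zero_add, Complex.add_im, this]
    ring
  rw [n1, n2, n3, n4, n5]
  ring

/-- constancy on an interval where the imaginary part does not vanish -/
theorem hf_step {v : ℂ} (hv : v / 2 ∈ Om) {a b : ℝ} (ha : 0 ≤ a) (hab : a ≤ b) (hb : b ≤ 1)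
    (him : ∀ t ∈ Ioo a b, (-Complex.exp (t * (-(Complex.I * v)))).im ≠ 0) :
    hf v b = hf v a := by
  rcases eq_or_lt_of_le hab with h | h
  · rw [h]
  obtain ⟨c, hc, hc'⟩ := exists_hasDerivAt_eq_slope (hf v) (fun _ => 0) h
    ((hf_cont hv).mono (Icc_subset_Icc ha hb))
    (fun t ht => hf_deriv hv ⟨ha.trans ht.1.le, ht.2.le.trans hb⟩ (him t ht))
  have h2 : (hf v b - hf v a) / (b - a) = 0 := hc'.symm
  rcases div_eq_zero_iff.1 h2 with h3 | h3
  · linarith
  · linarith

theorem im_exp (v : ℂ) (t : ℝ) : (-Complex.exp (t * (-(Complex.I * v)))).im =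
    Real.exp (t * (-(Complex.I * v))).re * Real.sin (t * v.re) := by
  rw [Complex.neg_im, Complex.exp_im]
  have e : (t * (-(Complex.I * v))).im = -(t * v.re) := by
    rw [Complex.im_ofReal_mul, Complex.neg_im, Complex.I_mul_im]
    ring
  rw [e, Real.sin_neg]
  ring

theorem LL_zero : LL 0 = 0 := by
  unfold LL; simp

theorem dvE_pos {v : ℂ} (hv : v / 2 ∈ Om) (hr : 0 < v.re) :
    Dv (-Complex.exp (-(Complex.I * v))) = 2 * (LL (v / 2)).re + v.im * (Complex.cos (v / 2)).arg := by
  have hpi := Real.pi_pos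
  have hre : v.re < 2 * π := by
    have h1 := hv.1
    rw [half_re] at h1
    have := (abs_lt.1 h1).2
    linarith
  have h01 : hf v 1 = hf v 0 := by
    rcases le_or_gt v.re π with h | h
    · refine hf_step hv le_rfl zero_le_one le_rfl fun t ht => ?_
      rw [im_exp]
      refine mul_ne_zero (Real.exp_pos _).ne' (ne_of_gt ?_)
      apply Real.sin_pos_of_pos_of_lt_pi (mul_pos ht.1 hr)
      nlinarith [ht.1, ht.2]
    · set t₀ := π / v.re with ht0
      have h0 : 0 < t₀ := div_pos hpi hr
      have h1 : t₀ < 1 := by rw [ht0, div_lt_one hr]; exact h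
      have h2 : t₀ * v.re = π := by rw [ht0]; field_simp
      have s1 : hf v t₀ = hf v 0 := by
        refine hf_step hv le_rfl h0.le h1.le fun t ht => ?_
        rw [im_exp]
        refine mul_ne_zero (Real.exp_pos _).ne' (ne_of_gt ?_)
        apply Real.sin_pos_of_pos_of_lt_pi (mul_pos ht.1 hr)
        rw [← h2]
        exact mul_lt_mul_of_pos_right ht.2 hr
      have s2 : hf v 1 = hf v t₀ := by
        refine hf_step hv h0.le h1.le le_rfl fun t ht => ?_
        rw [im_exp]
        refine mul_ne_zero (Real.exp_pos _).ne' (ne_of_lt ?_)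
        have h3 : π < t * v.re := by
          rw [← h2]
          exact mul_lt_mul_of_pos_right ht.1 hr
        have h4 : t * v.re < 2 * π := by nlinarith [ht.2, ht.1, h0]
        have h5 : Real.sin (t * v.re) = -Real.sin (t * v.re - π) := by
          rw [Real.sin_sub_pi]; ring
        rw [h5]
        have := Real.sin_pos_of_pos_of_lt_pi (x := t * v.re - π) (by linarith) (by linarith)
        linarith
      rw [s2, s1]
  have h0 : hf v 0 = 0 := by
    unfold hf
    simp [LL_zero, Dv_neg_one]
  rw [h0] at h01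
  unfold hf at h01
  simp only [Complex.ofReal_one, one_mul] at h01
  rw [two_mul_re] at h01
  linarith

theorem LL_neg (w : ℂ) : LL (-w) = -LL w := by
  unfold LL
  have : ∀ t : ℝ, Complex.cos (t * -w) = Complex.cos (t * w) := by
    intro t
    rw [mul_neg, Complex.cos_neg]
  simp_rw [this]
  ring

theorem Om_neg {w : ℂ} (hw : w ∈ Om) : -w ∈ Om := by
  obtain ⟨h1, h2⟩ := hw
  refine ⟨by rwa [Complex.neg_re, abs_neg], ?_⟩
  rw [Complex.neg_re, abs_neg, Complex.neg_im, neg_ne_zero]
  exact h2

/-- `Re LL(w) + Im w * arg (cos w) = -(1/2) Dv (-e^(2iw))` -/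
theorem LL_Dv {w : ℂ} (hw : w ∈ Om) :
    2 * (LL w).re + 2 * w.im * (Complex.cos w).arg = -Dv (-Complex.exp (Complex.I * (2 * w))) := by
  have hpi := Real.pi_pos
  -- positive real part
  have pos : ∀ w : ℂ, w ∈ Om → 0 < w.re → 2 * (LL w).re + 2 * w.im * (Complex.cos w).arg =
      -Dv (-Complex.exp (Complex.I * (2 * w))) := by
    intro w hw hr
    have e1 : (2 * w) / 2 = w := by ring
    have h1 := dvE_pos (v := 2 * w) (by rw [e1]; exact hw) (by rw [two_mul_re]; linarith)
    rw [e1] at h1
    have h2 : (2 * w).im = 2 * w.im := by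
      rw [show (2 : ℂ) = ((2 : ℝ) : ℂ) by norm_num, Complex.im_ofReal_mul]
    rw [h2] at h1
    have h3 : -Complex.exp (Complex.I * (2 * w)) = (-Complex.exp (-(Complex.I * (2 * w))))⁻¹ := by
      rw [Complex.exp_neg, inv_neg, inv_inv]
    rw [h3, dsym.2.2]
    linarith
  rcases lt_trichotomy w.re 0 with h | h | h
  · have h1 := pos (-w) (Om_neg hw) (by rw [Complex.neg_re]; linarith)
    rw [LL_neg, Complex.cos_neg, Complex.neg_re, Complex.neg_im] at h1
    have h3 : -Complex.exp (Complex.I * (2 * -w)) = (-Complex.exp (Complex.I * (2 * w)))⁻¹ := by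
      rw [inv_neg, ← Complex.exp_neg]
      congr 2
      ring
    rw [h3, dsym.2.2] at h1
    linarith
  · -- `w` is purely imaginary
    have hw' : w = w.im * Complex.I := by
      apply Complex.ext
      · simp [h]
      · simp
    obtain ⟨y, hy⟩ : ∃ y : ℝ, y = w.im := ⟨_, rfl⟩
    rw [← hy] at hw'
    have hc : Complex.cos w = (Real.cosh y : ℂ) := by
      rw [hw', Complex.cos_mul_I, Complex.ofReal_cosh]
    have ha : (Complex.cos w).arg = 0 := by
      rw [hc]; exact Complex.arg_ofReal_of_nonneg (Real.cosh_pos y).le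
    have hL : (LL w).re = 0 := by
      unfold LL
      have : ∀ t : ℝ, Complex.log (2 * Complex.cos (t * w)) =
          ((Real.log (2 * Real.cosh (t * y)) : ℝ) : ℂ) := by
        intro t
        have e : (t : ℂ) * w = ((t * y : ℝ) : ℂ) * Complex.I := by rw [hw']; push_cast; ring
        rw [e, Complex.cos_mul_I, ← Complex.ofReal_cosh]
        have e2 : (2 : ℂ) * (Real.cosh (t * y) : ℂ) = ((2 * Real.cosh (t * y) : ℝ) : ℂ) := by
          push_cast; ring
        rw [e2, ← Complex.ofReal_log]
        have := Real.cosh_pos (t * y)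
        positivity
      simp_rw [this]
      rw [intervalIntegral.integral_ofReal, hw']
      simp
    have hD : Dv (-Complex.exp (Complex.I * (2 * w))) = 0 := by
      have e : -Complex.exp (Complex.I * (2 * w)) = ((-Real.exp (-(2 * y)) : ℝ) : ℂ) := by
        rw [Complex.ofReal_neg, Complex.ofReal_exp]
        congr 2
        rw [hw']
        push_cast
        linear_combination (2 * (y : ℂ)) * Complex.I_mul_I
      rw [e]
      have h2 := dsym.1 ((-Real.exp (-(2 * y)) : ℝ) : ℂ)
      rw [Complex.conj_ofReal] at h2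
      linarith
    rw [hL, ha, hD]
    simp
  · exact pos w hw h

end Pool.Agent.N402.VE
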