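import Pool.Agent.W398.HT.RRD2
import Pool.Agent.N402.VE.Pid

/-!
# The function `LS`
-/

set_option autoImplicit false
set_option linter.all false

namespace Pool.Agent.N402.VE

open Filter Topology Metric Set MeasureTheory
open Pool.Agent.W711.HT
open Pool.Agent.W709.VC (Dv)
open Pool.Agent.W505.VC
open Pool.Agent.W583.HTP (half_re two_mul_re ld_cos ld_exp Dv_neg_one arg_two_mul norm_sin_le)
open Pool.Agent.N561 (LL LS)
open scoped Real ComplexConjugate Interval

theorem two_mul_im (v : ℂ) : (2 * v).im = 2 * v.im := by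
  rw [show (2 : ℂ) = ((2 : ℝ) : ℂ) by norm_num, Complex.im_ofReal_mul]

theorem sin_re' (w : ℂ) : (Complex.sin w).re = Real.sin w.re * Real.cosh w.im :=
  Pool.Agent.W583.HTP.sin_re w

/-- lower bound for the real part -/
theorem sin_lower {w : ℂ} (h0 : 0 < w.re) (h1 : w.re < π / 2) {t : ℝ} (ht0 : 0 ≤ t) (ht1 : t ≤ 1) :
    t * (4 / π * w.re) ≤ (2 * Complex.sin (t * w)).re := by
  have hpi := Real.pi_pos
  rw [two_mul_re, sin_re', Complex.re_ofReal_mul, Complex.im_ofReal_mul]
  have h2 := Real.mul_le_sin (x := t * w.re) (by positivity) (by nlinarith)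
  have h3 := Real.one_le_cosh (t * w.im)
  have h4 : 0 ≤ Real.sin (t * w.re) := le_trans (by positivity) h2
  have h5 : Real.sin (t * w.re) ≤ Real.sin (t * w.re) * Real.cosh (t * w.im) :=
    le_mul_of_one_le_right h4 h3
  have h6 : t * (4 / π * w.re) = 2 * (2 / π * (t * w.re)) := by ring
  rw [h6]
  linarith

theorem sin_pos' {w : ℂ} (h0 : 0 < w.re) (h1 : w.re < π / 2) {t : ℝ} (ht0 : 0 < t) (ht1 : t ≤ 1) :
    0 < (2 * Complex.sin (t * w)).re := by
  have := sin_lower h0 h1 ht0.le ht1
  have hpi := Real.pi_pos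
  have h2 : 0 < t * (4 / π * w.re) := by positivity
  linarith

theorem log_int {w : ℂ} (h0 : 0 < w.re) (h1 : w.re < π / 2) :
    IntervalIntegrable (fun t : ℝ => Complex.log (2 * Complex.sin (t * w))) volume 0 1 := by
  have hpi := Real.pi_pos
  set c := 4 / π * w.re with hc
  have hc0 : 0 < c := by positivity
  set B := |Real.log c| + |Real.log (2 * Real.exp ‖w‖)| + π with hB
  have hg : IntervalIntegrable (fun t : ℝ => B + |Real.log t|) volume 0 1 :=
    intervalIntegrable_const.add intervalIntegral.intervalIntegrable_log'.abs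
  refine hg.mono_fun' ?_ ?_
  · rw [Set.uIoc_of_le zero_le_one]
    have hcont : ContinuousOn (fun t : ℝ => Complex.log (2 * Complex.sin (t * w))) (Ioc 0 1) := by
      apply ContinuousOn.clog (by fun_prop)
      intro t ht
      exact Or.inl (sin_pos' h0 h1 ht.1 ht.2)
    exact hcont.aestronglyMeasurable measurableSet_Ioc
  · rw [Set.uIoc_of_le zero_le_one]
    refine (ae_restrict_iff' measurableSet_Ioc).2 (ae_of_all _ fun t ht => ?_)
    have g2 : t * c ≤ ‖2 * Complex.sin (t * w)‖ :=
      (sin_lower h0 h1 ht.1.le ht.2).trans (Complex.re_le_norm _)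
    have g3 : ‖2 * Complex.sin (t * w)‖ ≤ 2 * Real.exp ‖w‖ := by
      rw [norm_mul, Complex.norm_ofNat]
      have h1 := norm_sin_le (t * w)
      have h2 : ‖(t : ℂ) * w‖ ≤ ‖w‖ := by
        rw [norm_mul, Complex.norm_real, Real.norm_eq_abs, abs_of_pos ht.1]
        exact mul_le_of_le_one_left (norm_nonneg _) ht.2
      have h3 := Real.exp_le_exp.2 h2
      linarith
    obtain ⟨q, hq⟩ : ∃ q, q = 2 * Complex.sin (t * w) := ⟨_, rfl⟩
    rw [← hq] at g2 g3
    show ‖Complex.log (2 * Complex.sin (t * w))‖ ≤ _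
    rw [← hq]
    have ht0 := ht.1
    have hq0 : 0 < ‖q‖ := lt_of_lt_of_le (by positivity) g2
    have h4 : Complex.log q = (Real.log ‖q‖ : ℂ) + Complex.arg q * Complex.I := rfl
    rw [h4]
    have h5 := norm_add_le (Real.log ‖q‖ : ℂ) (Complex.arg q * Complex.I)
    rw [norm_mul, Complex.norm_I, mul_one, Complex.norm_real, Complex.norm_real, Real.norm_eq_abs,
      Real.norm_eq_abs] at h5
    have h6 := Complex.abs_arg_le_pi q
    have h9 : |Real.log ‖q‖| ≤ |Real.log c| + |Real.log (2 * Real.exp ‖w‖)| + |Real.log t| := by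
      rw [abs_le]
      constructor
      · have k1 := Real.log_le_log (by positivity) g2
        rw [Real.log_mul ht0.ne' hc0.ne'] at k1
        have k2 := neg_abs_le (Real.log t)
        have k3 := neg_abs_le (Real.log c)
        have k4 := abs_nonneg (Real.log (2 * Real.exp ‖w‖))
        linarith
      · have k1 := Real.log_le_log hq0 g3
        have k2 := le_abs_self (Real.log (2 * Real.exp ‖w‖))
        have k3 := abs_nonneg (Real.log t)
        have k4 := abs_nonneg (Real.log c)
        linarith
    linarith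

theorem mem_sub {w : ℂ} (h0 : 0 < w.re) (h1 : w.re < π / 2) {t : ℝ} (ht0 : 0 < t) (ht1 : t ≤ 1) :
    π / 2 - t * w ∈ Om := by
  have hpi := Real.pi_pos
  have e : (π / 2 - t * w : ℂ).re = π / 2 - t * w.re := by
    rw [Complex.sub_re, Complex.re_ofReal_mul, show (π / 2 : ℂ) = ((π / 2 : ℝ) : ℂ) by push_cast; ring,
      Complex.ofReal_re]
  have h2 : 0 < t * w.re := mul_pos ht0 h0
  have h3 : t * w.re < π / 2 := by nlinarith
  constructor
  · rw [e, abs_lt]; constructor <;> linarith
  · right
    rw [e, abs_lt]; constructor <;> linarith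

/-- `2 Re LS(w) + 2 Im w * arg (sin w) = - Dv (e^(2iw))` -/
theorem LS_Dv {w : ℂ} (h0 : 0 < w.re) (h1 : w.re < π / 2) :
    2 * (LS w).re + 2 * w.im * (Complex.sin w).arg = -Dv (Complex.exp (Complex.I * (2 * w))) := by
  have hpi := Real.pi_pos
  set F : ℝ → ℝ := fun t => -(Dv (Complex.exp (Complex.I * (2 * (t * w)))) +
    2 * (t * w.im) * (Complex.sin (t * w)).arg) with hF
  have hFL : ∀ t : ℝ, 0 < t → t ≤ 1 → F t = -(2 * (LL (π / 2 - t * w)).re) := by
    intro t ht0 ht1
    have h2 := LL_Dv (mem_sub h0 h1 ht0 ht1)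
    rw [Complex.cos_pi_div_two_sub] at h2
    have e1 : -Complex.exp (Complex.I * (2 * (π / 2 - t * w))) =
        (Complex.exp (Complex.I * (2 * (t * w))))⁻¹ := by
      rw [← Complex.exp_neg]
      have e2 : Complex.I * (2 * (π / 2 - t * w)) = -(Complex.I * (2 * (t * w))) + π * Complex.I := by
        ring
      rw [e2, Complex.exp_add, Complex.exp_pi_mul_I]
      ring
    have e3 : (π / 2 - t * w : ℂ).im = -(t * w.im) := by
      rw [Complex.sub_im, Complex.im_ofReal_mul,
        show (π / 2 : ℂ) = ((π / 2 : ℝ) : ℂ) by push_cast; ring, Complex.ofReal_im]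
      ring
    rw [e1, dsym.2.2, e3] at h2
    have h3 : F t = -(Dv (Complex.exp (Complex.I * (2 * (t * w)))) +
      2 * (t * w.im) * (Complex.sin (t * w)).arg) := rfl
    rw [h3]
    linarith
  have hcont : ContinuousOn F (Icc 0 1) := by
    intro t ht
    rcases eq_or_lt_of_le ht.1 with h | h
    · -- at zero
      rw [← h]
      apply ContinuousAt.continuousWithinAt
      rw [hF]
      apply ContinuousAt.neg
      apply ContinuousAt.add
      · apply Dv_cont.continuousAt.comp
        fun_prop
      · rw [ContinuousAt]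
        simp only [zero_mul, mul_zero]
        have hb : ∀ s : ℝ, |2 * (s * w.im) * (Complex.sin (s * w)).arg| ≤
            |2 * (s * w.im)| * π := by
          intro s
          rw [abs_mul]
          exact mul_le_mul_of_nonneg_left (Complex.abs_arg_le_pi _) (abs_nonneg _)
        have ht0 : Tendsto (fun s : ℝ => |2 * (s * w.im)| * π) (𝓝 0) (𝓝 0) := by
          have : ContinuousAt (fun s : ℝ => |2 * (s * w.im)| * π) 0 := by fun_prop
          have h2 := this.tendsto
          simpa using h2
        exact squeeze_zero_norm hb ht0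
    · rw [hF]
      apply ContinuousWithinAt.neg
      apply ContinuousWithinAt.add
      · apply ContinuousAt.continuousWithinAt
        apply Dv_cont.continuousAt.comp
        fun_prop
      · apply ContinuousAt.continuousWithinAt
        apply ContinuousAt.mul (by fun_prop)
        have h3 : 0 < (Complex.sin (t * w)).re := by
          have := sin_pos' h0 h1 h ht.2
          rw [two_mul_re] at this
          linarith
        have h4 : ContinuousAt Complex.arg (Complex.sin (t * w)) :=
          Complex.continuousAt_arg (Or.inl h3)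
        exact ContinuousAt.comp (f := fun s : ℝ => Complex.sin (s * w)) h4 (by fun_prop)
  have hder : ∀ t ∈ Ioo (0:ℝ) 1, HasDerivAt F
      (2 * (w * Complex.log (2 * Complex.sin (t * w))).re) t := by
    intro t ht
    have m1 := mem_sub h0 h1 ht.1 ht.2.le
    have d0 : HasDerivAt (fun s : ℝ => (π / 2 - s * w : ℂ)) (-w) t := by
      have := ((Complex.ofRealCLM.hasDerivAt (x := t)).mul_const w).const_sub (π / 2 : ℂ)
      simpa only [Complex.ofRealCLM_apply, Complex.ofReal_one, one_mul] using this
    have d1 := HasDerivAt.scomp t (LL_deriv m1) d0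
    have h3 := Complex.reCLM.hasFDerivAt.comp_hasDerivAt t d1
    have h4 : HasDerivAt (fun s : ℝ => (LL (π / 2 - s * w)).re)
        ((-w * Complex.log (2 * Complex.cos (π / 2 - t * w))).re) t := by
      simpa only [Function.comp_def, Complex.reCLM_apply, smul_eq_mul] using h3
    have h5 := (h4.const_mul 2).neg
    rw [Complex.cos_pi_div_two_sub, neg_mul, Complex.neg_re, mul_neg, neg_neg] at h5
    refine h5.congr_of_eventuallyEq ?_
    filter_upwards [Ioo_mem_nhds ht.1 ht.2] with s hs
    exact hFL s hs.1 hs.2.le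
  have hint : IntervalIntegrable
      (fun t : ℝ => 2 * (w * Complex.log (2 * Complex.sin (t * w))).re) volume 0 1 := by
    have h1 := (log_int h0 h1).const_mul w
    exact IntervalIntegrable.const_mul
      ⟨Complex.reCLM.integrable_comp h1.1, Complex.reCLM.integrable_comp h1.2⟩ 2
  have hftc := intervalIntegral.integral_eq_sub_of_hasDerivAt_of_le zero_le_one hcont hder hint
  have hre : ∫ t in (0:ℝ)..1, 2 * (w * Complex.log (2 * Complex.sin (t * w))).re =
      2 * (LS w).re := by
    have h1 := (log_int h0 h1).const_mul w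
    have h2 := Complex.reCLM.intervalIntegral_comp_comm h1
    simp only [Complex.reCLM_apply] at h2
    rw [intervalIntegral.integral_const_mul, h2, intervalIntegral.integral_const_mul]
    rfl
  rw [← hre, hftc, hF]
  have hD1 : Dv (Complex.exp (Complex.I * (2 * (((0:ℝ) : ℂ) * w)))) = 0 := by
    rw [Complex.ofReal_zero, zero_mul, mul_zero, mul_zero, Complex.exp_zero, Dv_one]
  simp only [hD1, zero_mul, mul_zero, add_zero, neg_zero, sub_zero, Complex.ofReal_one, one_mul]
  ring

theorem LS_ssF (δ : ℂ) : LS (π * δ) / π = ssF δ := by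
  unfold LS ssF
  have : ∀ t : ℝ, Complex.sin (t * (π * δ)) = Complex.sin (π * δ * t) := by
    intro t; congr 1; ring
  simp_rw [this]
  have hpi : (π : ℂ) ≠ 0 := by exact_mod_cast Real.pi_ne_zero
  field_simp

theorem LS_deriv {δ : ℂ} (h0 : 0 < δ.re) (h1 : δ.re < 1) :
    HasDerivAt (fun z => LS (π * z) / π) (Complex.log (2 * Complex.sin (π * δ))) δ := by
  have e : (fun z => LS (π * z) / π) = ssF := funext LS_ssF
  rw [e]
  have hV : IsOpen {z : ℂ | 0 < z.re ∧ z.re < 1} :=
    (isOpen_lt continuous_const Complex.continuous_re).inter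
      (isOpen_lt Complex.continuous_re continuous_const)
  refine Pool.Agent.W398.HT.ss_deriv (V := {z : ℂ | 0 < z.re ∧ z.re < 1}) hV ?_ δ ⟨h0, h1⟩
  intro z hz t ht
  obtain ⟨hz0, hz1⟩ := hz
  have hpi := Real.pi_pos
  left
  rcases eq_or_lt_of_le ht.1 with h | h
  · rw [← h, Pool.Agent.W398.HT.kk, Complex.ofReal_zero, mul_zero, Pool.Agent.W398.HT.sc_zero,
      mul_one, show (2 * π * z : ℂ) = ((2 * π : ℝ) : ℂ) * z by push_cast; ring,
      Complex.re_ofReal_mul]
    positivity
  · have h2 : (t : ℂ) ≠ 0 := by exact_mod_cast h.ne'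
    have h3 : Pool.Agent.W398.HT.kk z t = ((t⁻¹ : ℝ) : ℂ) * (2 * Complex.sin (π * z * t)) := by
      rw [Pool.Agent.W398.HT.sin_kk, Complex.ofReal_inv, ← mul_assoc, inv_mul_cancel₀ h2, one_mul]
    rw [h3, Complex.re_ofReal_mul, two_mul_re, sin_re']
    have e1 : (π * z * t : ℂ).re = π * z.re * t := by
      rw [Complex.re_mul_ofReal, Complex.re_ofReal_mul]
    rw [e1]
    have h4 : 0 < Real.sin (π * z.re * t) := by
      apply Real.sin_pos_of_pos_of_lt_pi (by positivity)
      have : z.re * t < 1 := by nlinarith [ht.2]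
      nlinarith
    have h5 := Real.cosh_pos (π * z * t : ℂ).im
    positivity

end Pool.Agent.N402.VE
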