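import Pool.Agent.N402.VE.Shp
import Pool.Agent.N402.VE.LSf
import Pool.Agent.N402.VE.Base

/-!
# The edges between a large and a small vertex
-/

set_option autoImplicit false
set_option linter.all false

namespace Pool.Agent.N402.VE

open Filter Topology Metric Set
open Pool.Agent.W711.HT hiding XX
open Pool.Agent.W709.VC (Dv)
open Pool.Agent.W505.VC
open Pool.Agent.W583.HTP (half_re two_mul_re arg_two_mul)
open Pool.Agent.W864.AR (t1 t2)
open Pool.Agent.TH609.Z (ex)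
open Pool.Agent.W554.HT (tri ang_eq)
open Pool.Agent.N561 (LL LS RR TH dst sg GG SGP SW EFW S_SGP S_EDGE)
open scoped Real

theorem half_im (v : ℂ) : (v / 2).im = v.im / 2 := by
  rw [show (v / 2 : ℂ) = v / ((2 : ℝ) : ℂ) by norm_num, Complex.div_ofReal_im]

theorem pi_mul_re (δ : ℂ) : ((π : ℂ) * δ).re = π * δ.re := Complex.re_ofReal_mul _ _

theorem pi_mul_im (δ : ℂ) : ((π : ℂ) * δ).im = π * δ.im := Complex.im_ofReal_mul _ _

/-- the derivative of `RR` in the first variable -/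
theorem RR_deriv {δ ψ : ℂ} (h1 : π * δ + ψ / 2 ∈ Om) (h2 : π * δ - ψ / 2 ∈ Om) :
    HasDerivAt (fun z => RR z ψ) (Complex.log (2 * Complex.cos (π * δ + ψ / 2)) +
      Complex.log (2 * Complex.cos (π * δ - ψ / 2))) δ := by
  have hpi : (π : ℂ) ≠ 0 := by exact_mod_cast Real.pi_ne_zero
  have d1 : HasDerivAt (fun z : ℂ => π * z + ψ / 2) (π : ℂ) δ := by
    simpa using ((hasDerivAt_id δ).const_mul (π : ℂ)).add_const (ψ / 2)
  have d2 : HasDerivAt (fun z : ℂ => π * z - ψ / 2) (π : ℂ) δ := by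
    simpa using ((hasDerivAt_id δ).const_mul (π : ℂ)).sub_const (ψ / 2)
  have e1 := HasDerivAt.comp (h := fun z : ℂ => π * z + ψ / 2) δ (LL_deriv h1) d1
  have e2 := HasDerivAt.comp (h := fun z : ℂ => π * z - ψ / 2) δ (LL_deriv h2) d2
  have e3 := (e1.add e2).div_const (π : ℂ)
  refine e3.congr_deriv ?_
  field_simp

theorem TH_deriv {δ ψ φ : ℂ} (h1 : π * δ + ψ / 2 ∈ Om) (h2 : π * δ - ψ / 2 ∈ Om)
    (h3 : π * δ + φ / 2 ∈ Om) (h4 : π * δ - φ / 2 ∈ Om) (h5 : 0 < δ.re) (h6 : δ.re < 1) :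
    HasDerivAt (TH ψ φ) ((Complex.log (2 * Complex.cos (π * δ + ψ / 2)) +
      Complex.log (2 * Complex.cos (π * δ - ψ / 2))) +
      (Complex.log (2 * Complex.cos (π * δ + φ / 2)) +
      Complex.log (2 * Complex.cos (π * δ - φ / 2))) -
      4 * Complex.log (2 * Complex.sin (π * δ))) δ := by
  exact ((RR_deriv h1 h2).add (RR_deriv h3 h4)).sub ((LS_deriv h5 h6).const_mul 4)

/-- the imaginary part of `Lg` -/
theorem Lg_im {u ψ : ℂ} (h : SW ψ u)
    (hd : |(Complex.cos ((u - ψ) / 2)).arg - (Complex.cos ((u + ψ) / 2)).arg| < π) :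
    (Lg u ψ).im = (Complex.cos ((u - ψ) / 2)).arg - (Complex.cos ((u + ψ) / 2)).arg := by
  obtain ⟨n1, n2, -⟩ := cos_ne h
  unfold Lg
  rw [Complex.log_im]
  apply ang_eq
  · rw [Complex.arg_div_coe_angle n1 n2, Real.Angle.coe_sub]
  · have b1 := Complex.neg_pi_lt_arg (Complex.cos ((u - ψ) / 2) / Complex.cos ((u + ψ) / 2))
    have b2 := Complex.arg_le_pi (Complex.cos ((u - ψ) / 2) / Complex.cos ((u + ψ) / 2))
    rw [abs_lt] at hd ⊢
    constructor <;> linarith [hd.1, hd.2]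

/-- the value -/
theorem value {δ ψ φ : ℂ} (h1 : π * δ + ψ / 2 ∈ Om) (h2 : π * δ - ψ / 2 ∈ Om)
    (h3 : π * δ + φ / 2 ∈ Om) (h4 : π * δ - φ / 2 ∈ Om) (h5 : 0 < δ.re) (h6 : δ.re < 1 / 2)
    (hc : HasDerivAt (TH ψ φ) 0 δ)
    (g1 : (Lg (2 * π * δ) ψ).im = (Complex.cos ((2 * π * δ - ψ) / 2)).arg -
      (Complex.cos ((2 * π * δ + ψ) / 2)).arg)
    (g2 : (Lg (2 * π * δ) φ).im = (Complex.cos ((2 * π * δ - φ) / 2)).arg -
      (Complex.cos ((2 * π * δ + φ) / 2)).arg) :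
    2 * π * (TH ψ φ δ).re = hv ψ φ (2 * π * δ) + ψ.im * (Lg (2 * π * δ) ψ).im +
      φ.im * (Lg (2 * π * δ) φ).im := by
  have hpi := Real.pi_pos
  have hpi' : (π : ℂ) ≠ 0 := by exact_mod_cast Real.pi_ne_zero
  have e0 := (TH_deriv h1 h2 h3 h4 h5 (by linarith)).unique hc
  have e1 := congrArg Complex.im e0
  have i4 : (4 * Complex.log (2 * Complex.sin (π * δ))).im =
      4 * (Complex.log (2 * Complex.sin (π * δ))).im := by
    rw [show (4 : ℂ) = ((4 : ℝ) : ℂ) by norm_num, Complex.im_ofReal_mul]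
  rw [Complex.sub_im, Complex.add_im, Complex.add_im, Complex.add_im, i4, Complex.zero_im,
    Complex.log_im, Complex.log_im, Complex.log_im, Complex.log_im, Complex.log_im, arg_two_mul,
    arg_two_mul, arg_two_mul, arg_two_mul, arg_two_mul] at e1
  have a1 := LL_Dv h1
  have a2 := LL_Dv h2
  have a3 := LL_Dv h3
  have a4 := LL_Dv h4
  have a5 := LS_Dv (w := π * δ) (by rw [pi_mul_re]; positivity) (by rw [pi_mul_re]; nlinarith)
  have k1 : ∀ z : ℂ, -Dv (-Complex.exp (Complex.I * (2 * (π * δ + z / 2)))) =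
      Dv (-Complex.exp (-(Complex.I * (2 * π * δ + z)))) := by
    intro z
    have : -Complex.exp (Complex.I * (2 * (π * δ + z / 2))) =
        (-Complex.exp (-(Complex.I * (2 * π * δ + z))))⁻¹ := by
      rw [inv_neg, ← Complex.exp_neg]
      congr 2
      ring
    rw [this, dsym.2.2, neg_neg]
  have k2 : ∀ z : ℂ, -Dv (-Complex.exp (Complex.I * (2 * (π * δ - z / 2)))) =
      Dv (-Complex.exp (Complex.I * (z - 2 * π * δ))) := by
    intro z
    have : -Complex.exp (Complex.I * (2 * (π * δ - z / 2))) =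
        (-Complex.exp (Complex.I * (z - 2 * π * δ)))⁻¹ := by
      rw [inv_neg, ← Complex.exp_neg]
      congr 2
      ring
    rw [this, dsym.2.2, neg_neg]
  have k3 : Complex.exp (Complex.I * (2 * (π * δ))) = Complex.exp (Complex.I * (2 * π * δ)) := by
    congr 1
    ring
  rw [k1] at a1 a3
  rw [k2] at a2 a4
  rw [k3] at a5
  have w1 : ∀ z : ℂ, (2 * π * δ + z) / 2 = π * δ + z / 2 := by intro z; ring
  have w2 : ∀ z : ℂ, (2 * π * δ - z) / 2 = π * δ - z / 2 := by intro z; ring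
  rw [w1, w2] at g1 g2
  have hR : ∀ z : ℂ, 2 * π * (RR δ z).re =
      2 * (LL (π * δ + z / 2)).re + 2 * (LL (π * δ - z / 2)).re := by
    intro z
    unfold RR
    rw [Complex.div_ofReal_re, Complex.add_re]
    field_simp
    try ring
  have hL : 2 * π * (4 * (LS (π * δ) / π)).re = 8 * (LS (π * δ)).re := by
    rw [show (4 * (LS (π * δ) / π) : ℂ) = ((4 : ℝ) : ℂ) * (LS (π * δ) / π) by norm_num,
      Complex.re_ofReal_mul, Complex.div_ofReal_re]
    field_simp
    ring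
  unfold TH
  rw [Complex.sub_re, Complex.add_re, mul_sub, mul_add, hR, hR, hL, g1, g2]
  unfold hv
  rw [Complex.add_im, half_im, pi_mul_im] at a1 a3
  rw [Complex.sub_im, half_im, pi_mul_im] at a2 a4
  rw [pi_mul_im] at a5
  linear_combination a1 + a2 + a3 + a4 - 4 * a5 - (2 * (π * δ.im)) * e1

/-! ### Neighbourhoods of the base point -/

theorem cont_t1 {f g : ℂ × ℂ → ℂ} {p : ℂ × ℂ} (hf : ContinuousAt f p) (hg : ContinuousAt g p)
    (h : 0 < (t1 (ex (f p)) (ex (g p))).im) :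
    ∀ᶠ q in 𝓝 p, 0 < (t1 (ex (f q)) (ex (g q))).im := by
  have n1 : 1 + ex (f p) * ex (g p) ≠ 0 := by
    intro h0
    rw [t1, h0, div_zero] at h
    simp at h
  have c1 : ContinuousAt (fun q : ℂ × ℂ => t1 (ex (f q)) (ex (g q))) p := by
    unfold t1 ex
    apply ContinuousAt.div
    · fun_prop
    · fun_prop
    · exact n1
  exact (Complex.continuous_im.continuousAt.comp c1).eventually_const_lt h

theorem cont_t2 {f g : ℂ × ℂ → ℂ} {p : ℂ × ℂ} (hf : ContinuousAt f p) (hg : ContinuousAt g p)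
    (h : 0 < (t2 (ex (f p)) (ex (g p))).im) :
    ∀ᶠ q in 𝓝 p, 0 < (t2 (ex (f q)) (ex (g q))).im := by
  have n1 : ex (f p) * (1 + ex (g p)) ≠ 0 := by
    intro h0
    rw [t2, h0, div_zero] at h
    simp at h
  have c1 : ContinuousAt (fun q : ℂ × ℂ => t2 (ex (f q)) (ex (g q))) p := by
    unfold t2 ex
    apply ContinuousAt.div
    · fun_prop
    · fun_prop
    · exact n1
  exact (Complex.continuous_im.continuousAt.comp c1).eventually_const_lt h

theorem cont_arg {f g : ℂ × ℂ → ℂ} {p : ℂ × ℂ} (hf : ContinuousAt f p) (hg : ContinuousAt g p)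
    (h1 : (f p - g p) / 2 ∈ Om) (h2 : (f p + g p) / 2 ∈ Om)
    (h : |(Complex.cos ((f p - g p) / 2)).arg - (Complex.cos ((f p + g p) / 2)).arg| < π) :
    ∀ᶠ q in 𝓝 p,
      |(Complex.cos ((f q - g q) / 2)).arg - (Complex.cos ((f q + g q) / 2)).arg| < π := by
  have c1 : ContinuousAt (fun q : ℂ × ℂ => Complex.cos ((f q - g q) / 2)) p := by fun_prop
  have c2 : ContinuousAt (fun q : ℂ × ℂ => Complex.cos ((f q + g q) / 2)) p := by fun_prop
  have d1 : ContinuousAt (fun q : ℂ × ℂ => (Complex.cos ((f q - g q) / 2)).arg) p :=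
    ContinuousAt.comp (f := fun q : ℂ × ℂ => Complex.cos ((f q - g q) / 2))
      (Complex.continuousAt_arg (arg_cos_cont h1)) c1
  have d2 : ContinuousAt (fun q : ℂ × ℂ => (Complex.cos ((f q + g q) / 2)).arg) p :=
    ContinuousAt.comp (f := fun q : ℂ × ℂ => Complex.cos ((f q + g q) / 2))
      (Complex.continuousAt_arg (arg_cos_cont h2)) c2
  exact (d1.sub d2).abs.eventually_lt_const h

theorem Rc_open (r s : ℝ) : IsOpen (Rc r s) :=
  (isOpen_lt (continuous_abs.comp Complex.continuous_re) continuous_const).inter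
    (isOpen_lt (continuous_abs.comp Complex.continuous_im) continuous_const)

/-- the arguments of the cosines are in the domain -/
theorem mem_Om_psi {δ ψ : ℂ} (h0 : 0 < δ.re) (h1 : 2 * π * δ.re + |ψ.re| < π) :
    π * δ + ψ / 2 ∈ Om ∧ π * δ - ψ / 2 ∈ Om := by
  have hpi := Real.pi_pos
  have h2 := abs_le.1 (le_refl |ψ.re|)
  have h3 := mul_pos hpi h0
  constructor
  · constructor
    · rw [Complex.add_re, pi_mul_re, half_re, abs_lt]; constructor <;> nlinarith
    · right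
      rw [Complex.add_re, pi_mul_re, half_re, abs_lt]; constructor <;> nlinarith
  · constructor
    · rw [Complex.sub_re, pi_mul_re, half_re, abs_lt]; constructor <;> nlinarith
    · right
      rw [Complex.sub_re, pi_mul_re, half_re, abs_lt]; constructor <;> nlinarith

theorem mem_Om_phi {δ φ : ℂ} (h0 : 0 < δ.re) (h1 : 2 * π * δ.re < π)
    (h2 : 2 * π * |δ.im| < φ.im) (h3 : |φ.re| < 33 / 16) :
    π * δ + φ / 2 ∈ Om ∧ π * δ - φ / 2 ∈ Om := by
  have hpi := Real.pi_gt_three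
  have h4 := abs_lt.1 h3
  have h5 := mul_pos Real.pi_pos h0
  have h6 := abs_le.1 (le_refl |δ.im|)
  constructor
  · constructor
    · rw [Complex.add_re, pi_mul_re, half_re, abs_lt]; constructor <;> linarith [h4.1, h4.2]
    · left
      rw [Complex.add_im, pi_mul_im, half_im]
      intro h
      nlinarith [h6.1, h6.2]
  · constructor
    · rw [Complex.sub_re, pi_mul_re, half_re, abs_lt]; constructor <;> linarith [h4.1, h4.2]
    · left
      rw [Complex.sub_im, pi_mul_im, half_im]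
      intro h
      nlinarith [h6.1, h6.2]

theorem edge (hG : S_SGP) : S_EDGE := by
  intro φ₀ hφ₀ hre
  obtain ⟨r, c, C, hS⟩ := hG φ₀ hφ₀
  have hpi := Real.pi_gt_three
  have hr0 := hS.hr.1
  have hr1 := hS.hr.2
  obtain ⟨q1, q2, q3, q4⟩ := hφ₀
  have q1' := abs_lt.1 q1
  -- the base point
  set t := φ₀ / 2 with ht
  have htp : Pt t := by
    refine ⟨?_, ?_, ?_⟩
    · rw [ht, half_re]; linarith
    · rw [ht, half_re]; linarith
    · rw [ht, half_im]; linarith
  have hφt : φ₀ = 2 * t := by rw [ht]; ring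
  have m0 : (0 : ℂ) ∈ Rc r r := by
    constructor <;> simpa using hr0
  have mφ : φ₀ ∈ ball φ₀ r := mem_ball_self hr0
  have hbd : dst 0 φ₀ = 1 / π * Complex.arctan (Complex.cos t) := by rw [dst_zero]
  have hX : ex (2 * π * dst 0 φ₀) =
      (1 + Complex.cos t * Complex.I) / (1 - Complex.cos t * Complex.I) := by
    rw [hbd]; exact ex_arctan htp
  obtain ⟨b1, b2, b3⟩ := hS.dpos 0 m0 φ₀ mφ
  rw [Complex.zero_re, abs_zero, add_zero] at b2
  have hopen : Rc r r ×ˢ ball φ₀ r ∈ 𝓝 ((0 : ℂ), φ₀) :=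
    ((Rc_open r r).prod isOpen_ball).mem_nhds ⟨m0, mφ⟩
  have hdc : ContinuousAt (fun p : ℂ × ℂ => dst p.1 p.2) ((0 : ℂ), φ₀) :=
    (hS.dan.differentiableAt hopen).continuousAt
  have huc : ContinuousAt (fun p : ℂ × ℂ => 2 * π * dst p.1 p.2) ((0 : ℂ), φ₀) :=
    continuousAt_const.mul hdc
  have c1 : ContinuousAt (fun p : ℂ × ℂ => p.1) ((0 : ℂ), φ₀) := continuousAt_fst
  have c2 : ContinuousAt (fun p : ℂ × ℂ => p.2) ((0 : ℂ), φ₀) := continuousAt_snd
  have v1 := cont_t1 huc c1 (by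
    simp only
    rw [hX, t1_zero htp]
    exact im_t1_zero htp)
  have v2 := cont_t2 huc c1 (by
    simp only
    rw [hX, t2_zero htp]
    exact im_t2_zero htp)
  have v3 := cont_t1 huc c2 (by
    simp only
    rw [hX, hφt, t1_phi htp]
    exact im_t1_phi htp)
  have v4 := cont_t2 huc c2 (by
    simp only
    rw [hX, hφt, t2_phi htp]
    exact im_t2_phi htp)
  have w1 : ∀ δ z : ℂ, (2 * π * δ + z) / 2 = π * δ + z / 2 := by intro δ z; ring
  have w2 : ∀ δ z : ℂ, (2 * π * δ - z) / 2 = π * δ - z / 2 := by intro δ z; ring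
  obtain ⟨o1, o2⟩ := mem_Om_psi (δ := dst 0 φ₀) (ψ := 0) b1 (by simpa using b2)
  obtain ⟨o3, o4⟩ := mem_Om_phi (δ := dst 0 φ₀) (φ := φ₀) b1 b2 b3 q1
  have v5 := cont_arg huc c1 (by simp only; rw [w2]; exact o2) (by simp only; rw [w1]; exact o1) (by
    simp only
    rw [sub_zero, add_zero, sub_self, abs_zero]
    exact Real.pi_pos)
  have v6 := cont_arg huc c2 (by simp only; rw [w2]; exact o4) (by simp only; rw [w1]; exact o3) (by
    simp only
    rw [w1, w2, ← ht]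
    have hπδ : (π : ℂ) * dst 0 φ₀ = Complex.arctan (Complex.cos t) := by
      rw [hbd]
      have hpi' : (π : ℂ) ≠ 0 := by exact_mod_cast Real.pi_ne_zero
      field_simp
    refine arg_w htp hπδ ?_ ?_ ?_
    · rw [pi_mul_re]; exact mul_pos Real.pi_pos b1
    · rw [pi_mul_re]; linarith
    · rw [pi_mul_im, abs_mul, abs_of_pos Real.pi_pos, ht, half_im]; linarith)
  have v7 : ∀ᶠ p in 𝓝 ((0 : ℂ), φ₀), 2 + Complex.cos p.1 + Complex.cos p.2 ≠ 0 := by
    have c3 : ContinuousAt (fun p : ℂ × ℂ => 2 + Complex.cos p.1 + Complex.cos p.2)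
      ((0 : ℂ), φ₀) := by fun_prop
    apply c3.eventually_ne
    simp only
    intro h0
    have h1 := congrArg Complex.re h0
    rw [Complex.add_re, Complex.add_re, Complex.cos_zero, Complex.one_re, Complex.zero_re] at h1
    have h2 : (Complex.cos φ₀).re = Real.cos φ₀.re * Real.cosh φ₀.im := by
      conv_lhs => rw [← Complex.re_add_im φ₀]
      exact (cos_parts _ _).1
    rw [h2] at h1
    have h3 : (2 : ℂ).re = 2 := by simp
    rw [h3] at h1
    linarith
  have hall := (((((((v1.and v2).and v3).and v4).and v5).and v6).and v7).and hopen)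
  obtain ⟨ε, hε, hb⟩ := Metric.eventually_nhds_iff.1 hall
  refine ⟨ε / 2, by linarith, fun ψ φ n1 n2 => ?_⟩
  have hd : dist (ψ, φ) ((0 : ℂ), φ₀) < ε := by
    rw [Prod.dist_eq]
    simp only [dist_eq_norm, sub_zero]
    rw [max_lt_iff]
    exact ⟨by linarith, by linarith⟩
  obtain ⟨⟨⟨⟨⟨⟨⟨k1, k2⟩, k3⟩, k4⟩, k5⟩, k6⟩, k7⟩, k8⟩ := hb hd
  obtain ⟨m1, m2⟩ := k8
  simp only at k1 k2 k3 k4 k5 k6 k7 m1 m2
  obtain ⟨s1, s2, s3⟩ := hS.dpos ψ m1 φ m2
  have hgg := hS.sub m2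
  obtain ⟨g1, g2, g3, g4⟩ := hgg
  have hψre : |ψ.re| < π := lt_of_lt_of_le m1.1 (by linarith)
  have hs2 : 2 * π * (dst ψ φ).re < π := by linarith [abs_nonneg ψ.re]
  obtain ⟨p1, p2⟩ := mem_Om_psi s1 s2
  obtain ⟨p3, p4⟩ := mem_Om_phi s1 hs2 s3 g1
  have hE : HE ψ φ (2 * π * dst ψ φ) :=
    ⟨⟨k1, k2⟩, ⟨k3, k4⟩, k7, hS.dcos ψ m1 φ m2, hψre, lt_of_lt_of_le g1 (by linarith)⟩
  refine ⟨hw hE, (hS.sder1 ψ m1 φ m2).deriv, (hS.sder2 ψ m1 φ m2).deriv, ?_⟩
  unfold sg
  have h12 : (dst ψ φ).re < 1 / 2 := by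
    by_contra hcon
    push Not at hcon
    nlinarith [Real.pi_pos]
  exact value p1 p2 p3 p4 s1 h12 (hS.dder ψ m1 φ m2) (Lg_im hE.sd k5) (Lg_im hE.sd' k6)

end Pool.Agent.N402.VE
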