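import Pool.Agent.N561.V.Defs

/-!
# The angles at an edge: only the signs of the imaginary parts are needed
-/

set_option autoImplicit false
set_option linter.all false

namespace Pool.Agent.N402.VE

open Pool.Agent.W711.HT hiding XX
open Pool.Agent.W719.AR (Fl flS)
open Pool.Agent.W864.AR (t1 t2 arg_half arg_lt_half arg3 arg4 arg_neg_exp)
open Pool.Agent.W709.VC (Dv S_TET S_DSYM S_FIVE)
open Pool.Agent.W554.HT (tri ang_eq)
open Pool.Agent.TH609.UV (fe)
open Pool.Agent.TH609.Z (ex)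
open Pool.Agent.N561 (SW SR HW)
open scoped Real

section
variable {ψ u : ℂ} (h : SW ψ u)
include h

lemma ne_t1 : t1 (ex u) (ex ψ) ≠ 0 := fun h0 => by
  have := h.im1
  rw [h0] at this
  simp at this

lemma ne_t2 : t2 (ex u) (ex ψ) ≠ 0 := fun h0 => by
  have := h.im2
  rw [h0] at this
  simp at this

lemma ne_X1 : ex u - 1 ≠ 0 := fun h0 => ne_t2 h (by rw [t2, h0, zero_mul, zero_div])

lemma ne_G1 : 1 + ex ψ ≠ 0 := fun h0 => ne_t2 h (by rw [t2, h0, mul_zero, div_zero])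

lemma ne_XG : 1 + ex u * ex ψ ≠ 0 := fun h0 => ne_t1 h (by rw [t1, h0, div_zero])

lemma one_sub_t1 : 1 - t1 (ex u) (ex ψ) = (1 - ex u) / (1 + ex u * ex ψ) := by
  have := ne_XG h
  rw [t1]
  field_simp
  ring

lemma one_sub_inv_t1 : 1 - 1 / t1 (ex u) (ex ψ) = t2 (ex u) (ex ψ) / ex ψ := by
  have h1 := ne_XG h
  have h2 : ex u ≠ 0 := Complex.exp_ne_zero _
  have h3 := ne_G1 h
  have h4 : ex ψ ≠ 0 := Complex.exp_ne_zero _
  have h5 : ex ψ + 1 ≠ 0 := by rwa [add_comm]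
  rw [t1, t2]
  field_simp
  ring

lemma one_sub_t2 : 1 - t2 (ex u) (ex ψ) = (ex u + ex ψ) / (ex u * (1 + ex ψ)) := by
  have h2 : ex u ≠ 0 := Complex.exp_ne_zero _
  have h3 := ne_G1 h
  rw [t2]
  field_simp
  ring

lemma one_sub_inv_t2 : 1 - 1 / t2 (ex u) (ex ψ) = -(ex u + ex ψ) / ((ex u - 1) * ex ψ) := by
  have h2 : ex u ≠ 0 := Complex.exp_ne_zero _
  have h3 := ne_G1 h
  have h4 : ex ψ ≠ 0 := Complex.exp_ne_zero _
  have h5 := ne_X1 h
  rw [t2]
  field_simp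
  ring

lemma ne_XaG : ex u + ex ψ ≠ 0 := by
  intro h0
  have h1 := (tri h.im2).2.1
  rw [one_sub_t2 h, h0, zero_div] at h1
  exact h1 rfl

lemma cos_ne : Complex.cos ((u - ψ) / 2) ≠ 0 ∧ Complex.cos ((u + ψ) / 2) ≠ 0 ∧
    Complex.cos ((u - ψ) / 2) / Complex.cos ((u + ψ) / 2) = (ex u + ex ψ) / (1 + ex u * ex ψ) := by
  set x := Complex.exp (Complex.I * u / 2) with hx
  set g := Complex.exp (Complex.I * ψ / 2) with hg
  have hx0 : x ≠ 0 := Complex.exp_ne_zero _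
  have hg0 : g ≠ 0 := Complex.exp_ne_zero _
  have ex' : ex u = x ^ 2 := by
    rw [hx, ← Complex.exp_nat_mul, ex]
    congr 1
    push_cast
    ring
  have eg : ex ψ = g ^ 2 := by
    rw [hg, ← Complex.exp_nat_mul, ex]
    congr 1
    push_cast
    ring
  have eA : Complex.cos ((u - ψ) / 2) = (x ^ 2 + g ^ 2) / (2 * x * g) := by
    rw [Complex.cos]
    have e1 : Complex.exp ((u - ψ) / 2 * Complex.I) = x / g := by
      rw [hx, hg, ← Complex.exp_sub]
      congr 1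
      ring
    have e2 : Complex.exp (-((u - ψ) / 2) * Complex.I) = g / x := by
      rw [hx, hg, ← Complex.exp_sub]
      congr 1
      ring
    rw [e1, e2]
    field_simp
  have eB : Complex.cos ((u + ψ) / 2) = (1 + x ^ 2 * g ^ 2) / (2 * x * g) := by
    rw [Complex.cos]
    have e1 : Complex.exp ((u + ψ) / 2 * Complex.I) = x * g := by
      rw [hx, hg, ← Complex.exp_add]
      congr 1
      ring
    have e2 : Complex.exp (-((u + ψ) / 2) * Complex.I) = 1 / (x * g) := by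
      rw [one_div, hx, hg, ← Complex.exp_add, ← Complex.exp_neg]
      congr 1
      ring
    rw [e1, e2]
    field_simp
    ring
  have n1 := ne_XaG h
  have n2 := ne_XG h
  rw [ex', eg] at n1 n2 ⊢
  have n3 : 2 * x * g ≠ 0 := mul_ne_zero (mul_ne_zero two_ne_zero hx0) hg0
  rw [eA, eB]
  refine ⟨div_ne_zero n1 n3, div_ne_zero n2 n3, ?_⟩
  field_simp

lemma exp_form : Complex.exp (Lg u ψ) = (ex u + ex ψ) / (1 + ex u * ex ψ) := by
  obtain ⟨hA, hB, hC⟩ := cos_ne h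
  unfold Lg
  rw [Complex.exp_log (div_ne_zero hA hB), hC]

end

/-- the conditions at an edge without the relations -/
structure HE (ψ ψ' u : ℂ) : Prop where
  sd : SW ψ u
  sd' : SW ψ' u
  den : 2 + Complex.cos ψ + Complex.cos ψ' ≠ 0
  eq : Complex.cos u = (1 - Complex.cos ψ * Complex.cos ψ') /
    (2 + Complex.cos ψ + Complex.cos ψ')
  re : |ψ.re| < π
  re' : |ψ'.re| < π

lemma he_symm {ψ ψ' u : ℂ} (h : HE ψ ψ' u) : HE ψ' ψ u :=
  ⟨h.sd', h.sd, by rw [add_right_comm]; exact h.den, by rw [h.eq, mul_comm, add_right_comm],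
    h.re', h.re⟩

/-- the hinge equation -/
lemma hinge {ψ ψ' u : ℂ} (h : HE ψ ψ' u) :
    -((1 - ex u) ^ 2 * ex ψ * (1 + ex ψ') ^ 2) =
    (1 + ex ψ) ^ 2 * ((1 + ex u * ex ψ') * (ex u + ex ψ')) := by
  have e1 := h.eq
  rw [eq_div_iff h.den] at e1
  have hX : ex u ≠ 0 := Complex.exp_ne_zero _
  have hG : ex ψ ≠ 0 := Complex.exp_ne_zero _
  have hK : ex ψ' ≠ 0 := Complex.exp_ne_zero _
  have c (z : ℂ) : Complex.cos z = (ex z + (ex z)⁻¹) / 2 := by
    rw [Complex.cos, ex, ← Complex.exp_neg]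
    congr 3
    · ring
    · ring
  rw [c u, c ψ, c ψ'] at e1
  set X := ex u
  set G := ex ψ
  set K := ex ψ'
  field_simp at e1
  linear_combination (-1) * e1

/-- a congruence modulo `2 π` as an equation -/
lemma ang_int {θ ψ : ℝ} (h : (θ : Real.Angle) = ψ) : ∃ k : ℤ, θ = ψ + 2 * π * k := by
  obtain ⟨k, hk⟩ := Real.Angle.angle_eq_iff_two_pi_dvd_sub.1 h
  exact ⟨k, by linarith⟩

/-- the relations modulo `2 π` between the angles at one side -/
theorem mods {ψ ψ' u : ℂ} (h : HE ψ ψ' u) :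
    (fe ψ u).Pos ∧
    (fe ψ u).b + (fe ψ u).c' + ((fe ψ' u).b + (fe ψ' u).c') = 2 * π ∧
    (∃ k : ℤ, 2 * (fe ψ u).c + ((fe ψ' u).a + (fe ψ' u).b') = π - ψ.re + 2 * π * k) ∧
    (∃ k : ℤ, 2 * (fe ψ u).a' + ((fe ψ' u).a + (fe ψ' u).b') = π + ψ.re + 2 * π * k) ∧
    (fe ψ u).tw = ψ.re ∧ (fe ψ u).cr = (Lg u ψ).im := by
  have h' := he_symm h
  have hW := exp_form h.sd
  have hn := h.sd
  have hn' := h.sd'
  have hg1 := hinge h
  have hg2 := hinge h'
  have hX : ex u ≠ 0 := Complex.exp_ne_zero _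
  have hX1 := ne_X1 hn
  have hG : ex ψ ≠ 0 := Complex.exp_ne_zero _
  have hG1 := ne_G1 hn
  have hXG := ne_XG hn
  have hXaG := ne_XaG hn
  have hK : ex ψ' ≠ 0 := Complex.exp_ne_zero _
  have hK1 := ne_G1 hn'
  have hXK := ne_XG hn'
  have hXaK := ne_XaG hn'
  have q1 := one_sub_t1 hn
  have q2 := one_sub_inv_t1 hn
  have q3 := one_sub_t2 hn
  have q4 := one_sub_inv_t2 hn
  have p1 := one_sub_t1 hn'
  have p2 := one_sub_inv_t1 hn'
  have p3 := one_sub_t2 hn'
  have p4 := one_sub_inv_t2 hn'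
  obtain ⟨t10, t11, t12, t13, t14, t15, -, -, -⟩ := tri hn.im1
  obtain ⟨t20, t21, t22, t23, t24, t25, -, -, -⟩ := tri hn.im2
  obtain ⟨u10, u11, u12, u13, u14, u15, -, -, -⟩ := tri hn'.im1
  obtain ⟨u20, u21, u22, u23, u24, u25, -, -, -⟩ := tri hn'.im2
  have hLg1 : -π < (Lg u ψ).im := by
    unfold Lg; rw [Complex.log_im]; exact Complex.neg_pi_lt_arg _
  have hLg2 : (Lg u ψ).im ≤ π := by
    unfold Lg; rw [Complex.log_im]; exact Complex.arg_le_pi _
  have hre := abs_lt.1 h.re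
  have hpi := Real.pi_gt_three
  have hYe : -Complex.exp (-(Complex.I * ψ)) = -(ex ψ)⁻¹ := by
    rw [Complex.exp_neg]
  have A1 := arg_neg_exp (Complex.I * ψ)
  have A2 := arg_neg_exp (-(Complex.I * ψ))
  rw [hYe] at A2
  have A3 := arg_neg_exp (Lg u ψ)
  rw [hW] at A3
  have i1 : (Complex.I * ψ).im = ψ.re := by simp
  have i2 : (-(Complex.I * ψ)).im = -ψ.re := by simp
  rw [i1] at A1
  rw [i2] at A2
  unfold fe
  change (-ex ψ).arg = ((ψ.re + π : ℝ) : Real.Angle) at A1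
  change (flS (t1 (ex u) (ex ψ)) (t2 (ex u) (ex ψ))).Pos ∧ _
  set X := ex u
  set G := ex ψ
  set K := ex ψ'
  have hX1' : 1 - X ≠ 0 := by
    intro h0
    apply hX1
    linear_combination -h0
  have z1 : 1 / (1 - t1 X G) ≠ 0 := one_div_ne_zero t11
  have z2 : 1 / (1 - t2 X G) ≠ 0 := one_div_ne_zero t21
  have z3 : 1 - 1 / t1 X G ≠ 0 := by rw [q2]; exact div_ne_zero t20 hG
  have z4 : 1 - 1 / t2 X G ≠ 0 := by
    rw [q4]
    exact div_ne_zero (neg_ne_zero.2 hXaG) (mul_ne_zero hX1 hG)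
  have y1 : 1 / (1 - t1 X K) ≠ 0 := one_div_ne_zero u11
  have y2 : 1 / (1 - t2 X K) ≠ 0 := one_div_ne_zero u21
  have y4 : 1 - 1 / t2 X K ≠ 0 := by
    rw [p4]
    exact div_ne_zero (neg_ne_zero.2 hXaK) (mul_ne_zero hX1 hK)
  refine ⟨⟨t14.1, t12.1, t13.1, by simp only [flS]; linarith, t24.1, t22.1, t23.1,
    by simp only [flS]; linarith⟩, ?_, ?_, ?_, ?_, ?_⟩
  · -- the edge
    simp only [flS]
    apply ang_eq
    · have e := arg4 z1 z4 y1 y4
      rw [Real.Angle.coe_two_pi]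
      have e2 : 1 / (1 - t1 X G) * (1 - 1 / t2 X G) * (1 / (1 - t1 X K)) * (1 - 1 / t2 X K) = 1 := by
        rw [q1, q4, p1, p4]
        field_simp
        apply mul_left_cancel₀ (mul_ne_zero (pow_ne_zero 2 hG1) (pow_ne_zero 2 hK1))
        linear_combination (-((1 + K) ^ 2 * ((1 + X * G) * (X + G)))) * hg1 -
          (-((1 - X) ^ 2 * G * (1 + K) ^ 2)) * hg2
      rw [e2, Complex.arg_one, Real.Angle.coe_zero] at e
      rw [← e]
      congr 1
      ring
    · rw [abs_lt]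
      constructor <;> linarith [t12.1, t12.2, t23.1, t23.2, u12.1, u12.2, u23.1, u23.2]
  · simp only [flS]
    apply ang_int
    have e := arg4 z3 z3 u10 y2
    have e2 : (1 - 1 / t1 X G) * (1 - 1 / t1 X G) * t1 X K * (1 / (1 - t2 X K)) = -G⁻¹ := by
      rw [q2, p3, t1, t2]
      field_simp
      linear_combination (-1) * hg1
    rw [e2, A2] at e
    have e3 : π - ψ.re = -ψ.re + π := by ring
    rw [e3, ← e]
    congr 1
    ring
  · simp only [flS]
    apply ang_int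
    have e := arg4 t20 t20 u10 y2
    have e2 : t2 X G * t2 X G * t1 X K * (1 / (1 - t2 X K)) = -G := by
      rw [p3, t1, t2]
      field_simp
      linear_combination (-1) * hg1
    rw [e2, A1] at e
    have e3 : π + ψ.re = ψ.re + π := by ring
    rw [e3, ← e]
    congr 1
    ring
  · simp only [Fl.tw, flS]
    have : (t1 X G).arg + (t2 X G).arg + (1 / (1 - t1 X G)).arg = ψ.re + π := by
      apply ang_eq
      · have e := arg3 t10 t20 z1
        have e2 : t1 X G * t2 X G * (1 / (1 - t1 X G)) = -G := by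
          rw [q1, t1, t2]
          field_simp
          ring
        rw [e, e2, A1]
      · rw [abs_lt]
        constructor <;> linarith [t13.1, t13.2, t14.1, t14.2, t24.1, t24.2, t12.1, t12.2]
    linarith
  · simp only [Fl.cr, flS]
    have : (t1 X G).arg + (t2 X G).arg + (1 - 1 / t2 X G).arg = (Lg u ψ).im + π := by
      apply ang_eq
      · have e := arg3 t10 t20 z4
        have e2 : t1 X G * t2 X G * (1 - 1 / t2 X G) = -((X + G) / (1 + X * G)) := by
          rw [q4, t1, t2]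
          field_simp
          ring
        rw [e, e2, A3]
      · rw [abs_lt]
        constructor <;> linarith [t14.1, t14.2, t24.1, t24.2, t22.1, t22.2, t23.1, t23.2]
    linarith

/-- the angles at an edge -/
theorem sr {ψ ψ' u : ℂ} (h : HE ψ ψ' u) : SR ψ ψ' u := by
  obtain ⟨P, e, ⟨k1, h1⟩, ⟨k2, h2⟩, h3, h4⟩ := mods h
  obtain ⟨P', e', ⟨k3, h5⟩, ⟨k4, h6⟩, -, -⟩ := mods (he_symm h)
  obtain ⟨pa, pb, pc, ps, pa', pb', pc', ps'⟩ := P
  obtain ⟨qa, qb, qc, qs, qa', qb', qc', qs'⟩ := P'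
  have hre := abs_lt.1 h.re
  have hre' := abs_lt.1 h.re'
  have hpi := Real.pi_pos
  have nn : ∀ k : ℤ, 0 < 2 * π + 2 * π * (k : ℝ) → 0 ≤ k := by
    intro k hk
    by_contra hneg
    push Not at hneg
    have : (k : ℝ) ≤ -1 := by exact_mod_cast Int.le_sub_one_of_lt hneg
    nlinarith
  have n1 : 0 ≤ k1 := nn k1 (by linarith)
  have n2 : 0 ≤ k2 := nn k2 (by linarith)
  have n3 : 0 ≤ k3 := nn k3 (by linarith)
  have n4 : 0 ≤ k4 := nn k4 (by linarith)
  have hs : (k1 : ℝ) + k2 + k3 + k4 = 0 := by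
    have : 2 * π * ((k1 : ℝ) + k2 + k3 + k4) = 0 := by linarith
    rcases mul_eq_zero.1 this with h0 | h0
    · exact absurd h0 (by positivity)
    · exact h0
  have hs' : k1 + k2 + k3 + k4 = 0 := by exact_mod_cast hs
  have z1 : k1 = 0 := by omega
  have z2 : k2 = 0 := by omega
  rw [z1] at h1
  rw [z2] at h2
  refine ⟨⟨pa, pb, pc, ps, pa', pb', pc', ps'⟩, e, ?_, ?_, h3, h4⟩
  · simpa using h1
  · simpa using h2

/-- the conditions at an edge -/
theorem hw {ψ ψ' u : ℂ} (h : HE ψ ψ' u) : HW ψ ψ' u :=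
  ⟨h.sd, h.sd', h.den, h.eq, sr h, sr (he_symm h)⟩

end Pool.Agent.N402.VE
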